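import Pool.Agent.TH314.ET.Energy

/-!
# The arithmetic large sieve for half of the classes

A set `F ⊆ [1, N]` which meets at most half of the classes modulo the prime factors of the squarefree
numbers of a set `M ⊆ [1, Q]` satisfies `|M| |F| ≤ 6 (N + Q²)`. The sieving condition which is used is that the
quadratic character of `(1 + k a) (1 + k b)` modulo each of these primes is the same for all `k` in `F`.
-/

set_option autoImplicit false

namespace Pool.Agent.H46SW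

open Finset Pool.Agent.Helper112 Pool.Agent.TH314.ET

theorem als {F : Finset ℕ} {N : ℕ} (hF : F ⊆ Icc 1 N) (M : Finset ℕ) (Q : ℕ)
    (hM : ∀ q ∈ M, 1 ≤ q ∧ q ≤ Q ∧ Squarefree q)
    (hR : ∀ q ∈ M, ∀ p ∈ q.primeFactors, 2 * (F.image (· % p)).card ≤ p) :
    (M.card : ℝ) * F.card ≤ 6 * (N + (Q : ℝ) ^ 2) := by
  classical
  rcases F.eq_empty_or_nonempty with h0 | h0
  · subst h0
    simp only [Finset.card_empty, Nat.cast_zero, mul_zero]
    positivity
  have hc : (0 : ℝ) < F.card := by exact_mod_cast Finset.card_pos.2 h0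
  have hls := additive_large_sieve N Q (ind F)
  have e1 : ∑ n ∈ Icc 1 N, ‖ind F n‖ ^ 2 = F.card := by
    have : ∀ n ∈ Icc 1 N, ‖ind F n‖ ^ 2 = if n ∈ F then (1 : ℝ) else 0 := by
      intro n _
      unfold ind
      split_ifs <;> simp
    rw [Finset.sum_congr rfl this, ← Finset.sum_filter, Finset.sum_const, nsmul_eq_mul, mul_one]
    congr 2
    ext n
    rw [mem_filter]
    exact ⟨fun h => h.2, fun h => ⟨hF h, h⟩⟩
  rw [e1] at hls
  have e2 : ∀ (f a : ℕ), ∑ n ∈ Icc 1 N, ind F n * ee (n * a / f) = Sf (ind F) (a / f) := by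
    intro f a
    rw [Sf_ind]
    have : ∀ n ∈ Icc 1 N, ind F n * ee (n * a / f) = if n ∈ F then ee (n * ((a : ℝ) / f)) else 0 := by
      intro n _
      unfold ind
      split_ifs
      · rw [one_mul, mul_div_assoc]
      · rw [zero_mul]
    rw [Finset.sum_congr rfl this, ← Finset.sum_filter]
    apply Finset.sum_congr _ fun _ _ => rfl
    ext n
    rw [mem_filter]
    exact ⟨fun h => h.2, fun h => ⟨hF h, h⟩⟩
  simp only [e2] at hls
  have h1 : ∀ q ∈ M, (F.card : ℝ) ^ 2 ≤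
      ∑ a ∈ (range q).filter (fun a => a.Coprime q), ‖Sf (ind F) (a / q)‖ ^ 2 := by
    intro q hq
    have h2 := mont_sqf (ind_summable F) (fun p => F.image (· % p)) q (hM q hq).2.2 (by
      intro p hp
      have hp0 : 0 < p := (Nat.prime_of_mem_primeFactors hp).pos
      exact ⟨fun n hn => mem_image_of_mem _ (ne_zero_mem hn), occ_pos h0 p, occ_le F hp0⟩) 0
    simp only [add_zero] at h2
    refine le_trans ?_ h2
    rw [Sf_ind_zero, Complex.norm_natCast]
    have h3 : (1 : ℝ) ≤ ∏ p ∈ q.primeFactors, ((p : ℝ) - (F.image (· % p)).card) / (F.image (· % p)).card := by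
      have : (1 : ℝ) = ∏ p ∈ q.primeFactors, (1 : ℝ) := by simp
      rw [this]
      apply Finset.prod_le_prod (fun _ _ => zero_le_one)
      intro p hp
      have h4 : (0 : ℝ) < (F.image (· % p)).card := by exact_mod_cast occ_pos h0 p
      rw [le_div_iff₀ h4]
      have h5 : (2 : ℝ) * (F.image (· % p)).card ≤ p := by exact_mod_cast hR q hq p hp
      linarith
    nlinarith [sq_nonneg (F.card : ℝ)]
  have h2 : (M.card : ℝ) * (F.card : ℝ) ^ 2 ≤ 6 * (N + (Q : ℝ) ^ 2) * F.card := by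
    refine le_trans ?_ hls
    calc (M.card : ℝ) * (F.card : ℝ) ^ 2 = ∑ _q ∈ M, (F.card : ℝ) ^ 2 := by
          rw [Finset.sum_const, nsmul_eq_mul]
      _ ≤ ∑ q ∈ M, ∑ a ∈ (range q).filter (fun a => a.Coprime q), ‖Sf (ind F) (a / q)‖ ^ 2 :=
          Finset.sum_le_sum h1
      _ ≤ _ := by
          apply Finset.sum_le_sum_of_subset_of_nonneg
          · intro q hq
            rw [mem_Icc]
            exact ⟨(hM q hq).1, (hM q hq).2.1⟩
          · intro q _ _
            exact Finset.sum_nonneg fun a _ => by positivity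
  have h3 : (M.card : ℝ) * F.card * F.card ≤ 6 * (N + (Q : ℝ) ^ 2) * F.card := by
    calc (M.card : ℝ) * F.card * F.card = (M.card : ℝ) * (F.card : ℝ) ^ 2 := by ring
      _ ≤ _ := h2
  exact le_of_mul_le_mul_right h3 hc

/-- at most half of the classes modulo an odd prime have a given nonzero quadratic character -/
lemma half_card {ℓ : ℕ} [Fact ℓ.Prime] (hℓ : ℓ ≠ 2) {τ : ℤ} (hτ : τ ≠ 0) :
    2 * ((univ : Finset (ZMod ℓ)).filter (fun t => quadraticChar (ZMod ℓ) t = τ)).card ≤ ℓ := by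
  classical
  have hch : ringChar (ZMod ℓ) ≠ 2 := by rw [ZMod.ringChar_zmod_n]; exact hℓ
  obtain ⟨u, hu⟩ := quadraticChar_exists_neg_one hch
  have hu0 : u ≠ 0 := by
    rintro rfl
    rw [MulChar.map_zero] at hu
    norm_num at hu
  obtain ⟨S, hS⟩ : ∃ S, S = (univ : Finset (ZMod ℓ)).filter (fun t => quadraticChar (ZMod ℓ) t = τ) := ⟨_, rfl⟩
  obtain ⟨S', hS'⟩ : ∃ S', S' = (univ : Finset (ZMod ℓ)).filter (fun t => quadraticChar (ZMod ℓ) t = -τ) := ⟨_, rfl⟩
  rw [← hS]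
  have h1 : S.card ≤ S'.card := by
    apply Finset.card_le_card_of_injOn (fun t => u * t)
    · intro t ht
      rw [mem_coe, hS, mem_filter] at ht
      rw [mem_coe, hS', mem_filter]
      refine ⟨mem_univ _, ?_⟩
      rw [map_mul, hu, ht.2]
      ring
    · intro t _ t' _ h
      exact mul_left_cancel₀ hu0 h
  have h2 : Disjoint S S' := by
    rw [hS, hS', Finset.disjoint_filter]
    intro t _ h3 h4
    rw [h3] at h4
    exact hτ (by omega)
  have h3 : (S ∪ S').card ≤ ℓ := by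
    have := Finset.card_le_univ (S ∪ S')
    rwa [ZMod.card] at this
  rw [Finset.card_union_of_disjoint h2] at h3
  omega

lemma jac_quad {ℓ : ℕ} [Fact ℓ.Prime] (n : ℤ) : jacobiSym n ℓ = quadraticChar (ZMod ℓ) (n : ZMod ℓ) := by
  rw [← jacobiSym.legendreSym.to_jacobiSym]
  rfl

/-- the sieving condition: `k ↦ (1 + k a) / (1 + k b)` is injective modulo `ℓ` -/
lemma occ_half {F : Finset ℕ} {a b ℓ : ℕ} (hp : ℓ.Prime) (hℓ : ℓ ≠ 2) (hab : (a : ZMod ℓ) ≠ (b : ZMod ℓ))
    {τ : ℤ} (hτ : τ ≠ 0) (h : ∀ k ∈ F, jacobiSym ((1 + k * a : ℕ) : ℤ) ℓ * jacobiSym ((1 + k * b : ℕ) : ℤ) ℓ = τ) :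
    2 * (F.image (· % ℓ)).card ≤ ℓ := by
  classical
  have : Fact ℓ.Prime := ⟨hp⟩
  refine le_trans ?_ (half_card hℓ hτ)
  apply Nat.mul_le_mul_left
  have hne : ∀ k ∈ F, ((1 + k * a : ℕ) : ZMod ℓ) ≠ 0 ∧ ((1 + k * b : ℕ) : ZMod ℓ) ≠ 0 := by
    intro k hk
    have h1 := h k hk
    constructor
    · intro h2
      rw [jac_quad] at h1
      rw [Int.cast_natCast, h2, MulChar.map_zero, zero_mul] at h1
      exact hτ h1.symm
    · intro h2
      rw [jac_quad ((1 + k * b : ℕ) : ℤ)] at h1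
      rw [Int.cast_natCast ((1 + k * b : ℕ)), h2, MulChar.map_zero, mul_zero] at h1
      exact hτ h1.symm
  have hmod : ∀ k : ℕ, ((k % ℓ : ℕ) : ZMod ℓ) = (k : ZMod ℓ) := fun k => ZMod.natCast_mod k ℓ
  apply Finset.card_le_card_of_injOn
    (fun k : ℕ => ((1 + (k : ZMod ℓ) * a) / (1 + (k : ZMod ℓ) * b) : ZMod ℓ))
  · intro k' hk'
    rw [mem_coe, mem_image] at hk'
    obtain ⟨k, hk, rfl⟩ := hk'
    rw [mem_coe, mem_filter]
    refine ⟨mem_univ _, ?_⟩
    beta_reduce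
    rw [hmod]
    obtain ⟨h2, h3⟩ := hne k hk
    have h1 := h k hk
    rw [jac_quad, jac_quad, Int.cast_natCast, Int.cast_natCast] at h1
    push_cast at h1 h2 h3
    rw [← h1, ← map_mul]
    have h4 : quadraticChar (ZMod ℓ) ((1 + (k : ZMod ℓ) * b) ^ 2) = 1 := quadraticChar_sq_one' h3
    have e : ((1 + (k : ZMod ℓ) * a) * (1 + (k : ZMod ℓ) * b) : ZMod ℓ) =
        ((1 + (k : ZMod ℓ) * a) / (1 + (k : ZMod ℓ) * b)) * (1 + (k : ZMod ℓ) * b) ^ 2 := by
      field_simp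
    rw [e, map_mul, h4, mul_one]
  · intro k₁ hk₁ k₂ hk₂ hkk
    rw [mem_coe, mem_image] at hk₁ hk₂
    obtain ⟨m₁, hm₁, rfl⟩ := hk₁
    obtain ⟨m₂, hm₂, rfl⟩ := hk₂
    beta_reduce at hkk
    rw [hmod, hmod] at hkk
    obtain ⟨_, h2⟩ := hne m₁ hm₁
    obtain ⟨_, h3⟩ := hne m₂ hm₂
    push_cast at h2 h3
    rw [div_eq_div_iff h2 h3] at hkk
    have h4 : ((m₁ : ZMod ℓ) - m₂) * ((a : ZMod ℓ) - b) = 0 := by linear_combination hkk
    rcases mul_eq_zero.1 h4 with h5 | h5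
    · have h6 : (m₁ : ZMod ℓ) = m₂ := sub_eq_zero.1 h5
      exact (ZMod.natCast_eq_natCast_iff' _ _ _).1 h6
    · exact absurd (sub_eq_zero.1 h5) hab

end Pool.Agent.H46SW
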