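import Pool.Agent.H46SW.Mt

/-!
# Counting pairs `1 + g a`, `1 + g b`
-/

set_option autoImplicit false

namespace Pool.Agent.H46SW

open Finset Real Pool.Agent.W57.SW

lemma card_real {α β : Type*} [DecidableEq β] (s : Finset α) (f : α → β) (B : ℝ)
    (h : ∀ b ∈ s.image f, ((s.filter (fun x => f x = b)).card : ℝ) ≤ B) :
    (s.card : ℝ) ≤ B * (s.image f).card := by
  have h1 : s.card = ∑ b ∈ s.image f, (s.filter (fun x => f x = b)).card :=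
    card_eq_sum_card_fiberwise fun x hx => mem_image_of_mem f hx
  rw [h1]
  push_cast
  calc ∑ b ∈ s.image f, ((s.filter (fun x => f x = b)).card : ℝ) ≤ ∑ _b ∈ s.image f, B := sum_le_sum h
    _ = _ := by rw [sum_const, nsmul_eq_mul, mul_comm]

/-- pairs `(g, m)` with `1 + g m` in a given set -/
lemma pairs_div (ε : ℝ) (hε : 0 < ε) : ∃ C : ℝ, 1 ≤ C ∧ ∀ x : ℕ, ∀ T : Finset (ℕ × ℕ),
    (∀ u ∈ T, 1 ≤ u.1 ∧ 1 ≤ u.2 ∧ 1 + u.1 * u.2 ≤ x) →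
    (T.card : ℝ) ≤ C * (x : ℝ) ^ ε * (T.image (fun u => 1 + u.1 * u.2)).card := by
  obtain ⟨C, hC, hdiv⟩ := Helper112.divisor_bound ε hε
  refine ⟨max 1 C, le_max_left _ _, fun x T hT => ?_⟩
  apply card_real
  intro q hq
  rw [mem_image] at hq
  obtain ⟨u, hu, hq⟩ := hq
  obtain ⟨u1, u2, u3⟩ := hT u hu
  have hq1 : 1 ≤ q - 1 := by
    have : 1 ≤ u.1 * u.2 := Nat.mul_pos u1 u2
    omega
  have h1 : (T.filter (fun u => 1 + u.1 * u.2 = q)).card ≤ (q - 1).divisors.card := by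
    apply Finset.card_le_card_of_injOn Prod.fst
    · intro w hw
      rw [mem_coe, mem_filter] at hw
      rw [mem_coe, Nat.mem_divisors]
      exact ⟨⟨w.2, by omega⟩, by omega⟩
    · intro w hw w' hw' h
      rw [mem_coe, mem_filter] at hw hw'
      have h2 : w.1 * w.2 = w.1 * w'.2 := by
        rw [show w.1 * w'.2 = w'.1 * w'.2 by rw [h]]
        omega
      have h3 := (hT w hw.1).1
      exact Prod.ext h (Nat.eq_of_mul_eq_mul_left h3 h2)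
  calc ((T.filter (fun u => 1 + u.1 * u.2 = q)).card : ℝ) ≤ (q - 1).divisors.card := by exact_mod_cast h1
    _ ≤ C * ((q - 1 : ℕ) : ℝ) ^ ε := hdiv (q - 1) hq1
    _ ≤ max 1 C * (x : ℝ) ^ ε := by
        apply mul_le_mul (le_max_right _ _) _ (by positivity) (by positivity)
        apply rpow_le_rpow (Nat.cast_nonneg _) _ hε.le
        exact_mod_cast (by omega : q - 1 ≤ x)

theorem cu (ε : ℝ) (hε : 0 < ε) (hε1 : ε ≤ 1 / 20) : ∃ (C : ℝ) (x₀ : ℕ), 1 ≤ C ∧ ∀ x : ℕ, x₀ ≤ x →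
    ∀ G K : ℕ, 1 ≤ G → G ≤ x → 1 ≤ K → K ≤ x → ∀ (T : Finset (ℕ × ℕ × ℕ)) (v : ℕ → ℕ → ℕ → ℤ),
    (∀ t ∈ T, 1 ≤ t.1 ∧ t.1 ≤ G ∧ 1 ≤ t.2.1 ∧ 1 ≤ t.2.2 ∧ t.2.2 ≤ K ∧ (1 + t.1 * t.2.1).Prime ∧
      1 + t.1 * t.2.1 ≤ x ∧ (∀ ℓ ∈ Pr ε x, (ℓ : ZMod (1 + t.1 * t.2.1)) ^ t.1 = 1) ∧
      Odd (1 + t.1 * t.2.2) ∧ ∀ ℓ ∈ Pr ε x, jacobiSym (ℓ : ℤ) (1 + t.1 * t.2.2) = v t.1 t.2.1 ℓ ∧
        v t.1 t.2.1 ℓ ≠ 0) →
    (T.card : ℝ) ≤ C * (x : ℝ) ^ (4 * ε) * G * (K : ℝ) ^ (3 / 4 : ℝ) := by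
  classical
  obtain ⟨C₁, x₁, hC₁, H₁⟩ := sv ε hε hε1
  obtain ⟨C₂, x₂, hC₂, H₂⟩ := mt ε hε hε1
  obtain ⟨C₃, hC₃, H₃⟩ := pairs_div ε hε
  refine ⟨C₁ * C₂ * C₃, max (max x₁ x₂) 1, ?_, fun x hx G K hG1 hGx hK1 hKx T v hT => ?_⟩
  · have : 1 ≤ C₁ * C₂ := one_le_mul_of_one_le_of_one_le hC₁ hC₂
    exact one_le_mul_of_one_le_of_one_le this hC₃
  have hxa : x₁ ≤ x := ((le_max_left _ _).trans (le_max_left _ _)).trans hx
  have hxb : x₂ ≤ x := ((le_max_right _ _).trans (le_max_left _ _)).trans hx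
  have hx1 : 1 ≤ x := (le_max_right _ _).trans hx
  have hxpos : (0 : ℝ) < x := by exact_mod_cast hx1
  obtain ⟨T₁, hT₁⟩ : ∃ T₁, T₁ = T.image (fun t => (t.1, t.2.1)) := ⟨_, rfl⟩
  -- fibres
  have h1 : (T.card : ℝ) ≤ (C₁ * (x : ℝ) ^ (2 * ε) * (K : ℝ) ^ (3 / 4 : ℝ)) * T₁.card := by
    rw [hT₁]
    apply card_real
    intro u hu
    rw [mem_image] at hu
    obtain ⟨t, ht, hu⟩ := hu
    obtain ⟨F, hF⟩ : ∃ F, F = (T.filter (fun t => (t.1, t.2.1) = u)).image (fun t => t.2.2) := ⟨_, rfl⟩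
    have hFc : (T.filter (fun t => (t.1, t.2.1) = u)).card = F.card := by
      rw [hF, card_image_of_injOn]
      intro w hw w' hw' h
      rw [mem_coe, mem_filter] at hw hw'
      have h2 : (w.1, w.2.1) = (w'.1, w'.2.1) := hw.2.trans hw'.2.symm
      rw [Prod.mk.injEq] at h2
      exact Prod.ext h2.1 (Prod.ext h2.2 h)
    rw [hFc]
    have hu1 : u.1 = t.1 := by rw [← hu]
    have hu2 : u.2 = t.2.1 := by rw [← hu]
    obtain ⟨t1, t2, t3, t4, t5, t6, t7, t8, t9, t10⟩ := hT t ht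
    refine H₁ x hxa K u.1 0 hK1 hKx (by rw [hu1]; omega) (Nat.zero_le _) (by rw [hu1]; omega) F ?_ (v u.1 u.2) ?_ ?_
    · intro k hk
      rw [hF, mem_image] at hk
      obtain ⟨w, hw, rfl⟩ := hk
      rw [mem_filter] at hw
      obtain ⟨a1, a2, a3, a4, a5, _⟩ := hT w hw.1
      rw [mem_Icc]
      exact ⟨a4, a5⟩
    · intro ℓ hℓ
      rw [hu1, hu2]
      exact (t10 ℓ hℓ).2
    · intro k hk
      rw [hF, mem_image] at hk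
      obtain ⟨w, hw, rfl⟩ := hk
      rw [mem_filter] at hw
      obtain ⟨hw1, hw2⟩ := hw
      obtain ⟨a1, a2, a3, a4, a5, a6, a7, a8, a9, a10⟩ := hT w hw1
      have e1 : u.1 = w.1 := by rw [← hw2]
      have e2 : u.2 = w.2.1 := by rw [← hw2]
      rw [e1, e2, mul_comm w.2.2 w.1, mul_zero, add_zero]
      refine ⟨a9, odd_one, fun ℓ hℓ => ?_⟩
      rw [jacobiSym.one_right, mul_one]
      exact (a10 ℓ hℓ).1
  -- the primes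
  have h2 : (T₁.card : ℝ) ≤ C₃ * (x : ℝ) ^ ε * (T₁.image (fun u => 1 + u.1 * u.2)).card := by
    apply H₃ x T₁
    intro u hu
    rw [hT₁, mem_image] at hu
    obtain ⟨t, ht, rfl⟩ := hu
    obtain ⟨t1, t2, t3, t4, t5, t6, t7, _⟩ := hT t ht
    exact ⟨t1, t3, t7⟩
  have h3 : ((T₁.image (fun u => 1 + u.1 * u.2)).card : ℝ) ≤ C₂ * (x : ℝ) ^ ε * G := by
    apply H₂ x hxb G hG1 hGx
    intro p hp
    rw [mem_image] at hp
    obtain ⟨u, hu, rfl⟩ := hp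
    rw [hT₁, mem_image] at hu
    obtain ⟨t, ht, rfl⟩ := hu
    obtain ⟨t1, t2, t3, t4, t5, t6, t7, t8, _⟩ := hT t ht
    exact ⟨t6, t.1, t1, t2, t8⟩
  have hK0 : 0 < (K : ℝ) ^ (3 / 4 : ℝ) := by
    have : (0 : ℝ) < K := by exact_mod_cast hK1
    positivity
  have hC₁0 : 0 < C₁ := by linarith
  have hC₃0 : 0 < C₃ := by linarith
  calc (T.card : ℝ) ≤ (C₁ * (x : ℝ) ^ (2 * ε) * (K : ℝ) ^ (3 / 4 : ℝ)) * T₁.card := h1
    _ ≤ (C₁ * (x : ℝ) ^ (2 * ε) * (K : ℝ) ^ (3 / 4 : ℝ)) *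
        (C₃ * (x : ℝ) ^ ε * (C₂ * (x : ℝ) ^ ε * G)) := by
        apply mul_le_mul_of_nonneg_left _ (by positivity)
        exact h2.trans (mul_le_mul_of_nonneg_left h3 (by positivity))
    _ = C₁ * C₂ * C₃ * ((x : ℝ) ^ (2 * ε) * (x : ℝ) ^ ε * (x : ℝ) ^ ε) * G * (K : ℝ) ^ (3 / 4 : ℝ) := by ring
    _ = _ := by
        rw [← rpow_add hxpos, ← rpow_add hxpos]
        congr 4
        ring

theorem cv (ε : ℝ) (hε : 0 < ε) (hε1 : ε ≤ 1 / 20) : ∃ (C : ℝ) (x₀ : ℕ), 1 ≤ C ∧ ∀ x : ℕ, x₀ ≤ x →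
    ∀ G A B : ℕ, 1 ≤ G → G ≤ x → A ≤ x → B ≤ x → ∀ (T : Finset (ℕ × ℕ × ℕ)),
    (∀ t ∈ T, 1 ≤ t.1 ∧ t.1 ≤ G ∧ 1 ≤ t.2.1 ∧ t.2.1 ≤ A ∧ 1 ≤ t.2.2 ∧ t.2.2 ≤ B ∧ t.2.1 ≠ t.2.2 ∧
      Odd (1 + t.1 * t.2.1) ∧ Odd (1 + t.1 * t.2.2) ∧
      ∀ ℓ ∈ Pr ε x, jacobiSym (ℓ : ℤ) (1 + t.1 * t.2.1) * jacobiSym (ℓ : ℤ) (1 + t.1 * t.2.2) = 1) →
    (T.card : ℝ) ≤ C * (x : ℝ) ^ (2 * ε) * (G : ℝ) ^ (3 / 4 : ℝ) * A * B := by
  classical
  obtain ⟨C₁, x₁, hC₁, H₁⟩ := sv ε hε hε1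
  refine ⟨C₁, x₁, hC₁, fun x hx G A B hG1 hGx hAx hBx T hT => ?_⟩
  obtain ⟨T₁, hT₁⟩ : ∃ T₁, T₁ = T.image (fun t => t.2) := ⟨_, rfl⟩
  have h1 : (T.card : ℝ) ≤ (C₁ * (x : ℝ) ^ (2 * ε) * (G : ℝ) ^ (3 / 4 : ℝ)) * T₁.card := by
    rw [hT₁]
    apply card_real
    intro u hu
    rw [mem_image] at hu
    obtain ⟨t, ht, hu⟩ := hu
    obtain ⟨F, hF⟩ : ∃ F, F = (T.filter (fun t => t.2 = u)).image (fun t => t.1) := ⟨_, rfl⟩
    have hFc : (T.filter (fun t => t.2 = u)).card = F.card := by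
      rw [hF, card_image_of_injOn]
      intro w hw w' hw' h
      rw [mem_coe, mem_filter] at hw hw'
      exact Prod.ext h (hw.2.trans hw'.2.symm)
    rw [hFc]
    obtain ⟨t1, t2, t3, t4, t5, t6, t7, _⟩ := hT t ht
    have e1 : u.1 = t.2.1 := by rw [← hu]
    have e2 : u.2 = t.2.2 := by rw [← hu]
    refine H₁ x hx G u.1 u.2 hG1 hGx (by rw [e1]; omega) (by rw [e2]; omega) (by rw [e1, e2]; exact t7) F ?_
      (fun _ => 1) (fun _ _ => one_ne_zero) ?_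
    · intro k hk
      rw [hF, mem_image] at hk
      obtain ⟨w, hw, rfl⟩ := hk
      rw [mem_filter] at hw
      obtain ⟨a1, a2, _⟩ := hT w hw.1
      rw [mem_Icc]
      exact ⟨a1, a2⟩
    · intro k hk
      rw [hF, mem_image] at hk
      obtain ⟨w, hw, rfl⟩ := hk
      rw [mem_filter] at hw
      obtain ⟨hw1, hw2⟩ := hw
      obtain ⟨a1, a2, a3, a4, a5, a6, a7, a8, a9, a10⟩ := hT w hw1
      rw [← hw2]
      exact ⟨a8, a9, a10⟩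
  have h2 : (T₁.card : ℝ) ≤ A * B := by
    have h3 : T₁.card ≤ (Icc 1 A ×ˢ Icc 1 B).card := by
      apply card_le_card
      intro u hu
      rw [hT₁, mem_image] at hu
      obtain ⟨t, ht, rfl⟩ := hu
      obtain ⟨t1, t2, t3, t4, t5, t6, _⟩ := hT t ht
      rw [mem_product, mem_Icc, mem_Icc]
      exact ⟨⟨t3, t4⟩, t5, t6⟩
    rw [card_product, Nat.card_Icc, Nat.card_Icc, Nat.add_sub_cancel, Nat.add_sub_cancel] at h3
    exact_mod_cast h3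
  have hC₁0 : 0 < C₁ := by linarith
  calc (T.card : ℝ) ≤ (C₁ * (x : ℝ) ^ (2 * ε) * (G : ℝ) ^ (3 / 4 : ℝ)) * T₁.card := h1
    _ ≤ (C₁ * (x : ℝ) ^ (2 * ε) * (G : ℝ) ^ (3 / 4 : ℝ)) * (A * B) :=
        mul_le_mul_of_nonneg_left h2 (by positivity)
    _ = _ := by ring

theorem cw (ε : ℝ) (hε : 0 < ε) (hε1 : ε ≤ 1 / 20) : ∃ C : ℝ, 1 ≤ C ∧ ∀ x : ℕ, 1 ≤ x →
    ∀ G A B : ℕ, 1 ≤ G → 1 ≤ B → ∀ (T : Finset (ℕ × ℕ × ℕ)),
    (∀ t ∈ T, 1 ≤ t.1 ∧ t.1 ≤ G ∧ 1 ≤ t.2.1 ∧ t.2.1 ≤ A ∧ 1 ≤ t.2.2 ∧ t.2.2 ≤ B ∧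
      (1 + t.1 * t.2.2).Prime ∧ 1 + t.1 * t.2.2 ≤ x ∧ Odd (1 + t.1 * t.2.2) ∧
      ∀ ℓ ∈ Pr ε x, jacobiSym (ℓ : ℤ) (1 + t.1 * t.2.2) = 1) →
    (T.card : ℝ) ≤ C * (x : ℝ) ^ (2 * ε) * ((G : ℝ) * B) ^ (1 / 2 : ℝ) * A := by
  classical
  have hA1 : 1 < 2 / (1 + ε) := by
    rw [lt_div_iff₀ (by linarith)]
    linarith
  obtain ⟨K, hK, hrank⟩ := Dq_rank (2 / (1 + ε)) (ε / 2) hA1 (by positivity)
  have hexp : 1 / (2 / (1 + ε)) + ε / 2 = 1 / 2 + ε := by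
    field_simp
    ring
  rw [hexp] at hrank
  obtain ⟨C₃, hC₃, H₃⟩ := pairs_div ε hε
  refine ⟨max 1 (2 * C₃ * K), le_max_left _ _, fun x hx1 G A B hG1 hB1 T hT => ?_⟩
  have hx1' : (1 : ℝ) ≤ x := by exact_mod_cast hx1
  have hxpos : (0 : ℝ) < x := by linarith
  obtain ⟨T₁, hT₁⟩ : ∃ T₁, T₁ = T.image (fun t => (t.1, t.2.2)) := ⟨_, rfl⟩
  have h1 : (T.card : ℝ) ≤ (A : ℝ) * T₁.card := by
    rw [hT₁]
    apply card_real
    intro u hu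
    have h2 : (T.filter (fun t => (t.1, t.2.2) = u)).card ≤ (Icc 1 A).card := by
      apply Finset.card_le_card_of_injOn (fun t => t.2.1)
      · intro w hw
        rw [mem_coe, mem_filter] at hw
        obtain ⟨a1, a2, a3, a4, _⟩ := hT w hw.1
        rw [mem_coe, mem_Icc]
        exact ⟨a3, a4⟩
      · intro w hw w' hw' h
        rw [mem_coe, mem_filter] at hw hw'
        have h2 : (w.1, w.2.2) = (w'.1, w'.2.2) := hw.2.trans hw'.2.symm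
        rw [Prod.mk.injEq] at h2
        exact Prod.ext h2.1 (Prod.ext h h2.2)
    rw [Nat.card_Icc, Nat.add_sub_cancel] at h2
    exact_mod_cast h2
  have h2 : (T₁.card : ℝ) ≤ C₃ * (x : ℝ) ^ ε * (T₁.image (fun u => 1 + u.1 * u.2)).card := by
    apply H₃ x T₁
    intro u hu
    rw [hT₁, mem_image] at hu
    obtain ⟨t, ht, rfl⟩ := hu
    obtain ⟨t1, t2, t3, t4, t5, t6, t7, t8, _⟩ := hT t ht
    exact ⟨t1, t5, t8⟩
  obtain ⟨X, hX⟩ : ∃ X, X = min (2 * (G * B)) x := ⟨_, rfl⟩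
  have hGB : 1 ≤ G * B := Nat.mul_pos hG1 hB1
  have hX1 : 1 ≤ X := by rw [hX]; exact le_min (by omega) hx1
  have h3 : ((T₁.image (fun u => 1 + u.1 * u.2)).card : ℝ) ≤ K * (X : ℝ) ^ (1 / 2 + ε) := by
    refine le_trans ?_ (hrank x X hX1 (by rw [hX]; exact min_le_right _ _))
    have : (T₁.image (fun u => 1 + u.1 * u.2)).card ≤ ((Dq (2 / (1 + ε)) x).filter (fun m => m ≤ X)).card := by
      apply card_le_card
      intro p hp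
      rw [mem_image] at hp
      obtain ⟨u, hu, rfl⟩ := hp
      rw [hT₁, mem_image] at hu
      obtain ⟨t, ht, rfl⟩ := hu
      obtain ⟨t1, t2, t3, t4, t5, t6, t7, t8, t9, t10⟩ := hT t ht
      rw [mem_filter, mem_Dq]
      refine ⟨⟨⟨by simp, t8⟩, t9, t7.prime.squarefree, t10⟩, ?_⟩
      rw [hX]
      refine le_min ?_ t8
      have h4 : t.1 * t.2.2 ≤ G * B := Nat.mul_le_mul t2 t6
      simp only
      omega
    exact_mod_cast this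
  have h4 : (X : ℝ) ^ (1 / 2 + ε) ≤ 2 * ((G : ℝ) * B) ^ (1 / 2 : ℝ) * (x : ℝ) ^ ε := by
    have hXpos : (0 : ℝ) < X := by exact_mod_cast hX1
    rw [rpow_add hXpos]
    apply mul_le_mul _ _ (by positivity) (by positivity)
    · have h5 : (X : ℝ) ≤ 2 * (G * B) := by
        have : X ≤ 2 * (G * B) := by rw [hX]; exact min_le_left _ _
        exact_mod_cast this
      calc (X : ℝ) ^ (1 / 2 : ℝ) ≤ (2 * ((G : ℝ) * B)) ^ (1 / 2 : ℝ) := rpow_le_rpow hXpos.le h5 (by norm_num)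
        _ = 2 ^ (1 / 2 : ℝ) * ((G : ℝ) * B) ^ (1 / 2 : ℝ) := mul_rpow (by norm_num) (by positivity)
        _ ≤ 2 * ((G : ℝ) * B) ^ (1 / 2 : ℝ) := by
            apply mul_le_mul_of_nonneg_right _ (by positivity)
            calc (2 : ℝ) ^ (1 / 2 : ℝ) ≤ 2 ^ (1 : ℝ) := rpow_le_rpow_of_exponent_le (by norm_num) (by norm_num)
              _ = 2 := rpow_one 2
    · apply rpow_le_rpow hXpos.le _ hε.le
      have : X ≤ x := by rw [hX]; exact min_le_right _ _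
      exact_mod_cast this
  have hC₃0 : 0 < C₃ := by linarith
  calc (T.card : ℝ) ≤ (A : ℝ) * T₁.card := h1
    _ ≤ A * (C₃ * (x : ℝ) ^ ε * (K * (2 * ((G : ℝ) * B) ^ (1 / 2 : ℝ) * (x : ℝ) ^ ε))) := by
        apply mul_le_mul_of_nonneg_left _ (Nat.cast_nonneg _)
        refine h2.trans (mul_le_mul_of_nonneg_left ?_ (by positivity))
        exact h3.trans (mul_le_mul_of_nonneg_left h4 hK.le)
    _ = (2 * C₃ * K) * ((x : ℝ) ^ ε * (x : ℝ) ^ ε) * ((G : ℝ) * B) ^ (1 / 2 : ℝ) * A := by ring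
    _ = (2 * C₃ * K) * ((x : ℝ) ^ (2 * ε) * ((G : ℝ) * B) ^ (1 / 2 : ℝ) * A) := by
        rw [← rpow_add hxpos, ← two_mul]
        ring
    _ ≤ max 1 (2 * C₃ * K) * ((x : ℝ) ^ (2 * ε) * ((G : ℝ) * B) ^ (1 / 2 : ℝ) * A) :=
        mul_le_mul_of_nonneg_right (le_max_right _ _) (by positivity)
    _ = _ := by ring

end Pool.Agent.H46SW
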