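import Pool.Agent.H46SW.Semi

/-!
# Products of two primes without a small witness: the structure and the total count
-/

set_option autoImplicit false

namespace Pool.Agent.H46SW

open Finset Real Pool.Agent.W57.SW Pool.Agent.H379R2.W

/-- the number of boxes -/
lemma count_boxes (ε : ℝ) (hε : 0 < ε) : ∃ C : ℝ, 1 ≤ C ∧ ∀ x : ℕ, 1 ≤ x → ∀ (T : Finset (ℕ × ℕ × ℕ)) (B : ℝ), 0 ≤ B →
    (∀ t ∈ T, t.1 ≤ x ∧ t.2.1 ≤ x ∧ t.2.2 ≤ x) →
    (∀ i j k : ℕ, ∀ S ⊆ T, (∀ t ∈ S, Nat.log 2 t.1 = i ∧ Nat.log 2 t.2.1 = j ∧ Nat.log 2 t.2.2 = k) →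
      (S.card : ℝ) ≤ B) →
    (T.card : ℝ) ≤ C * (x : ℝ) ^ ε * B := by
  classical
  refine ⟨(6 / ε + 1) ^ 3, ?_, fun x hx1 T B hB hT hbox => ?_⟩
  · apply one_le_pow₀
    have : 0 < 6 / ε := by positivity
    linarith
  have hx1' : (1 : ℝ) ≤ x := by exact_mod_cast hx1
  have hxpos : (0 : ℝ) < x := by linarith
  obtain ⟨f, hf⟩ : ∃ f : ℕ × ℕ × ℕ → ℕ × ℕ × ℕ, f = fun t => (Nat.log 2 t.1, Nat.log 2 t.2.1, Nat.log 2 t.2.2) := ⟨_, rfl⟩
  have h1 : (T.card : ℝ) ≤ B * (T.image f).card := by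
    apply card_real
    intro b _
    apply hbox b.1 b.2.1 b.2.2 _ (filter_subset _ _)
    intro t ht
    rw [mem_filter, hf] at ht
    rw [← ht.2]
    exact ⟨rfl, rfl, rfl⟩
  obtain ⟨L, hL⟩ : ∃ L, L = Nat.log 2 x + 1 := ⟨_, rfl⟩
  have h2 : (T.image f).card ≤ L * (L * L) := by
    have : (T.image f) ⊆ range L ×ˢ range L ×ˢ range L := by
      intro b hb
      rw [mem_image] at hb
      obtain ⟨t, ht, rfl⟩ := hb
      obtain ⟨t1, t2, t3⟩ := hT t ht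
      rw [hf, mem_product, mem_product, mem_range, mem_range, mem_range, hL]
      refine ⟨?_, ?_, ?_⟩
      · exact Nat.lt_succ_of_le (show Nat.log 2 _ ≤ Nat.log 2 x from Nat.log_mono_right t1)
      · exact Nat.lt_succ_of_le (show Nat.log 2 _ ≤ Nat.log 2 x from Nat.log_mono_right t2)
      · exact Nat.lt_succ_of_le (show Nat.log 2 _ ≤ Nat.log 2 x from Nat.log_mono_right t3)
    have h3 := card_le_card this
    rwa [card_product, card_product, card_range] at h3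
  have h3 : (L : ℝ) ≤ (6 / ε + 1) * (x : ℝ) ^ (ε / 3) := by
    have h4 : (Nat.log 2 x : ℝ) ≤ 2 * log x := by
      have h5 : (2 : ℝ) ^ (Nat.log 2 x) ≤ x := by exact_mod_cast Nat.pow_log_le_self 2 (by omega)
      have h6 := log_le_log (by positivity) h5
      rw [log_pow] at h6
      have h7 := log_two_gt_d9
      have h8 : (0 : ℝ) ≤ Nat.log 2 x := Nat.cast_nonneg _
      nlinarith
    have h5 : log (x : ℝ) ≤ (x : ℝ) ^ (ε / 3) / (ε / 3) := log_le_rpow_div hxpos.le (by positivity)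
    have h6 : 1 ≤ (x : ℝ) ^ (ε / 3) := one_le_rpow hx1' (by positivity)
    rw [hL]
    push_cast
    have h7 : (x : ℝ) ^ (ε / 3) / (ε / 3) = 3 / ε * (x : ℝ) ^ (ε / 3) := by field_simp
    rw [h7] at h5
    have h8 : 6 / ε * (x : ℝ) ^ (ε / 3) = 2 * (3 / ε * (x : ℝ) ^ (ε / 3)) := by ring
    have h9 : (6 / ε + 1) * (x : ℝ) ^ (ε / 3) = 2 * (3 / ε * (x : ℝ) ^ (ε / 3)) + (x : ℝ) ^ (ε / 3) := by
      rw [add_mul, h8, one_mul]
    rw [h9]
    linarith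
  have h4 : ((T.image f).card : ℝ) ≤ (6 / ε + 1) ^ 3 * (x : ℝ) ^ ε := by
    calc ((T.image f).card : ℝ) ≤ ((L * (L * L) : ℕ) : ℝ) := by exact_mod_cast h2
      _ = (L : ℝ) ^ 3 := by push_cast; ring
      _ ≤ ((6 / ε + 1) * (x : ℝ) ^ (ε / 3)) ^ 3 := pow_le_pow_left₀ (Nat.cast_nonneg _) h3 3
      _ = (6 / ε + 1) ^ 3 * (x : ℝ) ^ ε := by
          rw [mul_pow]
          congr 1
          rw [← rpow_natCast, ← rpow_mul hxpos.le]
          congr 1
          push_cast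
          ring
  calc (T.card : ℝ) ≤ B * (T.image f).card := h1
    _ ≤ B * ((6 / ε + 1) ^ 3 * (x : ℝ) ^ ε) := mul_le_mul_of_nonneg_left h4 hB
    _ = _ := by ring

lemma gcd_eq {p q : ℕ} (hp : 2 ≤ p) (hq : 2 ≤ q) : Nat.gcd (p - 1) (p * q - 1) = Nat.gcd (p - 1) (q - 1) := by
  have e1 : p * q - 1 = (q - 1) + (p - 1) * q := by
    obtain ⟨p', rfl⟩ : ∃ p', p = p' + 1 := ⟨p - 1, by omega⟩
    obtain ⟨q', rfl⟩ : ∃ q', q = q' + 1 := ⟨q - 1, by omega⟩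
    simp only [Nat.add_sub_cancel]
    rw [show (p' + 1) * (q' + 1) = q' + p' * (q' + 1) + 1 by ring]
    omega
  rw [e1, Nat.gcd_add_mul_left_right]

/-- small primes lie in the subgroup of order `gcd (p - 1) (q - 1)` modulo `p` -/
lemma pow_gcd {p q ℓ : ℕ} (hp : p.Prime) (hq : q.Prime) (h : Passes (p * q) ℓ) :
    (ℓ : ZMod p) ^ (Nat.gcd (p - 1) (q - 1)) = 1 := by
  have : Fact p.Prime := ⟨hp⟩
  have h1 := pow_of_passes_dvd h (Dvd.intro q rfl : p ∣ p * q)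
  have hpq : 4 ≤ p * q := Nat.mul_le_mul hp.two_le hq.two_le
  have hne : (ℓ : ZMod p) ≠ 0 := by
    intro h0
    rw [h0, zero_pow (by omega)] at h1
    exact zero_ne_one h1
  have h2 : (ℓ : ZMod p) ^ (p - 1) = 1 := ZMod.pow_card_sub_one_eq_one hne
  rw [← gcd_eq hp.two_le hq.two_le]
  exact orderOf_dvd_iff_pow_eq_one.1 (Nat.dvd_gcd (orderOf_dvd_of_pow_eq_one h2) (orderOf_dvd_of_pow_eq_one h1))

/-- the structure of the exceptional products of two primes -/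
theorem struct (ε : ℝ) (hε : 0 < ε) (hε1 : ε ≤ 1 / 20) : ∃ x₀ : ℕ, ∀ x : ℕ, x₀ ≤ x →
    ∀ p q : ℕ, p.Prime → q.Prime → Bd 2 (p * q) → p * q ≤ x → (x : ℝ) ^ (23 / 48 : ℝ) < (p * q : ℕ) →
    ∃ t : ℕ × ℕ × ℕ, (EType ε x t ∨ FType ε x t) ∧ p * q = (1 + t.1 * t.2.1) * (1 + t.1 * t.2.2) := by
  obtain ⟨N₁, hN₁⟩ := bad_squarefree
  obtain ⟨N₂, hN₂3, hN₂⟩ := bd_gcd 2 ε le_rfl hε
  have hA1 : 1 < 2 / (1 + ε) := by
    rw [lt_div_iff₀ (by linarith)]
    linarith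
  have hA2 : 2 / (1 + ε) < 2 := by
    rw [div_lt_iff₀ (by linarith)]
    linarith
  have hev : ∀ᶠ x : ℕ in Filter.atTop, ((max N₁ N₂ : ℕ) : ℝ) ≤ (x : ℝ) ^ (23 / 48 : ℝ) ∧
      (3 : ℝ) ≤ (log x) ^ (2 - 2 / (1 + ε)) ∧ 2 ≤ log (x : ℝ) := by
    have hl : Filter.Tendsto (fun x : ℕ => log (x : ℝ)) Filter.atTop Filter.atTop :=
      tendsto_log_atTop.comp tendsto_natCast_atTop_atTop
    have h3 := (tendsto_rpow_atTop (sub_pos.2 hA2)).comp hl
    have h4 : Filter.Tendsto (fun x : ℕ => (x : ℝ) ^ (23 / 48 : ℝ)) Filter.atTop Filter.atTop :=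
      (tendsto_rpow_atTop (by norm_num)).comp tendsto_natCast_atTop_atTop
    exact (h4.eventually_ge_atTop _).and ((h3.eventually_ge_atTop 3).and (hl.eventually_ge_atTop 2))
  obtain ⟨x₀, hx₀⟩ := Filter.eventually_atTop.1 hev
  refine ⟨max x₀ 1, fun x hx p q hp hq hb hpqx hlow => ?_⟩
  have hx1 : 1 ≤ x := (le_max_right _ _).trans hx
  have hxpos : (0 : ℝ) < x := by exact_mod_cast hx1
  obtain ⟨g1, g2, g3⟩ := hx₀ x ((le_max_left _ _).trans hx)
  obtain ⟨n, hn⟩ : ∃ n, n = p * q := ⟨_, rfl⟩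
  rw [← hn] at hb hpqx hlow
  have hNn : max N₁ N₂ ≤ n := by
    have : ((max N₁ N₂ : ℕ) : ℝ) ≤ n := g1.trans hlow.le
    exact_mod_cast this
  have hn3 : 3 ≤ n := hN₂3.trans ((le_max_right _ _).trans hNn)
  -- the small primes are not witnesses
  have hlogn : 23 / 48 * log (x : ℝ) ≤ log n := by
    have := log_le_log (by positivity) hlow.le
    rwa [log_rpow hxpos] at this
  have hsmall : ∀ ℓ ∈ Pr ε x, (ℓ : ℝ) ≤ 2 * (log n) ^ (2 : ℝ) := by
    intro ℓ hℓ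
    refine (mem_Pr.1 hℓ).2.1.trans ?_
    have hlx : 0 < log (x : ℝ) := by linarith
    have h1 : (log (x : ℝ)) ^ (2 / (1 + ε)) * 3 ≤ (log x) ^ (2 : ℝ) := by
      calc (log (x : ℝ)) ^ (2 / (1 + ε)) * 3 ≤ (log (x : ℝ)) ^ (2 / (1 + ε)) * (log x) ^ (2 - 2 / (1 + ε)) :=
            mul_le_mul_of_nonneg_left g2 (by positivity)
        _ = (log x) ^ (2 : ℝ) := by
            rw [← rpow_add hlx]
            congr 1
            ring
    rw [rpow_two] at h1 ⊢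
    nlinarith
  have hpass : ∀ ℓ ∈ Pr ε x, Passes n ℓ := fun ℓ hℓ => hb.2.2 ℓ (mem_Pr.1 hℓ).1.one_lt (hsmall ℓ hℓ)
  have hsq : Squarefree n := hN₁ n ((le_max_left _ _).trans hNn) (hb.bad le_rfl hn3)
  have hne : p ≠ q := by
    intro h
    rw [hn, ← h] at hsq
    exact hp.one_lt.ne' (Nat.isUnit_iff.1 (hsq p dvd_rfl))
  -- the prime factors are large
  have hlarge : ∀ r : ℕ, r.Prime → r ∣ n → (∀ ℓ ∈ Pr ε x, ℓ < r) ∧ r ≠ 2 := by
    intro r hr hrn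
    have h1 := bd_prime_large hb hr hrn
    refine ⟨fun ℓ hℓ => ?_, ?_⟩
    · have := hsmall ℓ hℓ
      have h2 : (ℓ : ℝ) < r := by linarith
      exact_mod_cast h2
    · intro h
      rw [h] at h1
      have h2 : (1 : ℝ) ≤ (log n) ^ (2 : ℝ) := one_le_rpow (one_le_log hn3) (by norm_num)
      push_cast at h1
      linarith
  have hpn : p ∣ n := ⟨q, hn⟩
  have hqn : q ∣ n := ⟨p, by rw [hn, mul_comm]⟩
  have hsym : ∀ r : ℕ, r.Prime → r ∣ n → ∀ ℓ ∈ Pr ε x, jacobiSym (ℓ : ℤ) r = 1 ∨ jacobiSym (ℓ : ℤ) r = -1 := by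
    intro r hr hrn ℓ hℓ
    have h1 := (hlarge r hr hrn).1 ℓ hℓ
    have hco : Nat.Coprime ℓ r := (Nat.coprime_primes (mem_Pr.1 hℓ).1 hr).mpr h1.ne
    have : NeZero r := ⟨hr.ne_zero⟩
    rcases jacobiSym.trichotomy (ℓ : ℤ) r with h | h | h
    · exfalso
      rw [jacobiSym.eq_zero_iff_not_coprime, Int.gcd_natCast_natCast] at h
      exact h hco
    · exact Or.inl h
    · exact Or.inr h
  -- the parametrisation
  obtain ⟨g, hg⟩ : ∃ g, g = Nat.gcd (p - 1) (q - 1) := ⟨_, rfl⟩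
  have hp2 := hp.two_le
  have hq2 := hq.two_le
  have hg1 : 1 ≤ g := by
    rw [hg]
    exact Nat.gcd_pos_of_pos_left _ (by omega)
  obtain ⟨a, ha⟩ : g ∣ p - 1 := by rw [hg]; exact Nat.gcd_dvd_left _ _
  obtain ⟨b, hb'⟩ : g ∣ q - 1 := by rw [hg]; exact Nat.gcd_dvd_right _ _
  have hpe : p = 1 + g * a := by omega
  have hqe : q = 1 + g * b := by omega
  have ha1 : 1 ≤ a := by
    rcases Nat.eq_zero_or_pos a with h | h
    · rw [h, mul_zero] at ha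
      omega
    · exact h
  have hb1 : 1 ≤ b := by
    rcases Nat.eq_zero_or_pos b with h | h
    · rw [h, mul_zero] at hb'
      omega
    · exact h
  have hpo : Odd p := hp.odd_of_ne_two (hlarge p hp hpn).2
  have hqo : Odd q := hq.odd_of_ne_two (hlarge q hq hqn).2
  have hgp : ∀ ℓ ∈ Pr ε x, (ℓ : ZMod p) ^ g = 1 := by
    intro ℓ hℓ
    rw [hg]
    have h1 := hpass ℓ hℓ
    rw [hn] at h1
    exact pow_gcd hp hq h1
  have hgq : ∀ ℓ ∈ Pr ε x, (ℓ : ZMod q) ^ g = 1 := by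
    intro ℓ hℓ
    rw [hg, Nat.gcd_comm]
    have h1 := hpass ℓ hℓ
    rw [hn, mul_comm] at h1
    exact pow_gcd hq hp h1
  -- the size of the gcd
  have hsize : ∀ r s c : ℕ, r.Prime → n = r * s → r = 1 + g * c → 1 ≤ c → Nat.gcd (r - 1) (s - 1) = g →
      (1 / 2 - ε) * log c ≤ (1 / 2 + ε) * log g := by
    intro r s c hr hrs hrc hc1 hgcd
    obtain ⟨h1, h2⟩ := hN₂ n ((le_max_right _ _).trans hNn) hb r s hr hrs
    rw [hgcd] at h1
    have hcr : (0 : ℝ) < c := by exact_mod_cast hc1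
    have hgr : (0 : ℝ) < g := by exact_mod_cast hg1
    have h3 : (g : ℝ) * c ≤ r := by
      rw [hrc]
      push_cast
      linarith
    have hrr : (0 : ℝ) < r := by exact_mod_cast hr.pos
    have h4 := log_le_log (rpow_pos_of_pos hrr _) h1
    rw [log_rpow hrr] at h4
    have h5 := log_le_log (by positivity) h3
    rw [log_mul hgr.ne' hcr.ne'] at h5
    have h6 : (1 - 1 / 2 - ε) * (log g + log c) ≤ (1 - 1 / 2 - ε) * log r :=
      mul_le_mul_of_nonneg_left h5 (by linarith)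
    nlinarith
  rcases lt_trichotomy (v2 p) (v2 q) with hv | hv | hv
  · -- `q` has symbol one
    refine ⟨(g, a, b), Or.inr ?_, ?_⟩
    · refine ⟨hg1, ha1, hb1, ?_, ?_, ?_, ?_, ?_, ?_, ?_, ?_⟩
      · simp only; rw [← hpe]; exact hp
      · simp only; rw [← hqe]; exact hq
      · simp only; rw [← hpe, ← hqe, ← hn]; exact hpqx
      · simp only; rw [← hpe]; exact hpo
      · simp only; rw [← hqe]; exact hqo
      · simp only; rw [← hpe]; exact hgp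
      · simp only; rw [← hqe]
        intro ℓ hℓ
        exact symbol_one (hpass ℓ hℓ) hq hp (hlarge q hq hqn).2 (hlarge p hp hpn).2 hqn hpn hv
      · exact hsize q p b hq (by rw [hn, mul_comm]) hqe hb1 (by rw [hg, Nat.gcd_comm])
    · simp only; rw [← hpe, ← hqe]
  · have hsame : ∀ ℓ ∈ Pr ε x, jacobiSym (ℓ : ℤ) p = jacobiSym (ℓ : ℤ) q := fun ℓ hℓ =>
      same_symbol (hpass ℓ hℓ) hp hq (hlarge p hp hpn).2 (hlarge q hq hqn).2 hpn hqn hv
    rcases lt_trichotomy a b with hab | hab | hab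
    · refine ⟨(g, a, b), Or.inl ?_, ?_⟩
      · refine ⟨hg1, ha1, hab, ?_, ?_, ?_, ?_, ?_, ?_, ?_⟩
        · simp only; rw [← hpe]; exact hp
        · simp only; rw [← hqe]; exact hq
        · simp only; rw [← hpe, ← hqe, ← hn]; exact hpqx
        · simp only; rw [← hpe]; exact hpo
        · simp only; rw [← hqe]; exact hqo
        · simp only; rw [← hqe]; exact hgq
        · simp only; rw [← hpe, ← hqe]
          exact fun ℓ hℓ => ⟨hsame ℓ hℓ, hsym q hq hqn ℓ hℓ⟩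
      · simp only; rw [← hpe, ← hqe]
    · exact absurd (by rw [hpe, hqe, hab]) hne
    · refine ⟨(g, b, a), Or.inl ?_, ?_⟩
      · refine ⟨hg1, hb1, hab, ?_, ?_, ?_, ?_, ?_, ?_, ?_⟩
        · simp only; rw [← hqe]; exact hq
        · simp only; rw [← hpe]; exact hp
        · simp only; rw [← hpe, ← hqe, mul_comm, ← hn]; exact hpqx
        · simp only; rw [← hqe]; exact hqo
        · simp only; rw [← hpe]; exact hpo
        · simp only; rw [← hpe]; exact hgp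
        · simp only; rw [← hpe, ← hqe]
          exact fun ℓ hℓ => ⟨(hsame ℓ hℓ).symm, hsym p hp hpn ℓ hℓ⟩
      · simp only; rw [← hpe, ← hqe, mul_comm]
  · refine ⟨(g, b, a), Or.inr ?_, ?_⟩
    · refine ⟨hg1, hb1, ha1, ?_, ?_, ?_, ?_, ?_, ?_, ?_, ?_⟩
      · simp only; rw [← hqe]; exact hq
      · simp only; rw [← hpe]; exact hp
      · simp only; rw [← hpe, ← hqe, mul_comm, ← hn]; exact hpqx
      · simp only; rw [← hqe]; exact hqo
      · simp only; rw [← hpe]; exact hpo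
      · simp only; rw [← hqe]; exact hgq
      · simp only; rw [← hpe]
        intro ℓ hℓ
        exact symbol_one (hpass ℓ hℓ) hp hq (hlarge p hp hpn).2 (hlarge q hq hqn).2 hpn hqn hv
      · exact hsize p q a hp hn hpe ha1 hg.symm
    · simp only; rw [← hpe, ← hqe, mul_comm]

open Classical in
/-- the main count -/
theorem semi_count (ε : ℝ) (hε : 0 < ε) : ∃ K : ℝ, 0 < K ∧ ∀ x : ℕ, 1 ≤ x →
    (((Icc 1 x).filter (fun n => Bd 2 n ∧ ∃ p q : ℕ, p.Prime ∧ q.Prime ∧ n = p * q)).card : ℝ) ≤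
      K * (x : ℝ) ^ (23 / 48 + ε) := by
  obtain ⟨δ, hδ0, hδ1, hδ2⟩ : ∃ δ : ℝ, 0 < δ ∧ δ ≤ 1 / 20 ∧ 5 * δ ≤ ε :=
    ⟨min (1 / 20) (ε / 5), lt_min (by norm_num) (by positivity), min_le_left _ _, by
      have := min_le_right (1 / 20 : ℝ) (ε / 5)
      linarith⟩
  obtain ⟨c₁, x₁, H₁⟩ := boxE δ hδ0 hδ1
  obtain ⟨c₂, x₂, H₂⟩ := boxF δ hδ0 hδ1
  obtain ⟨x₃, H₃⟩ := struct δ hδ0 hδ1
  obtain ⟨C, hC, H₄⟩ := count_boxes δ hδ0
  obtain ⟨X, hX⟩ : ∃ X, X = max (max x₁ x₂) (max x₃ 1) := ⟨_, rfl⟩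
  refine ⟨X + 1 + C * (exp c₁ + exp c₂), by
    have : 0 < C := by linarith
    positivity, fun x hx1 => ?_⟩
  have hx1' : (1 : ℝ) ≤ x := by exact_mod_cast hx1
  have hxpos : (0 : ℝ) < x := by linarith
  have hpow1 : (1 : ℝ) ≤ (x : ℝ) ^ (23 / 48 + ε) := one_le_rpow hx1' (by positivity)
  have hC0 : 0 < C := by linarith
  have hE0 : 0 ≤ C * (exp c₁ + exp c₂) := by positivity
  rcases lt_or_ge x X with hsmall | hlarge
  · have h1 : ((Icc 1 x).filter (fun n => Bd 2 n ∧ ∃ p q : ℕ, p.Prime ∧ q.Prime ∧ n = p * q)).card ≤ x := by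
      refine (card_filter_le _ _).trans ?_
      rw [Nat.card_Icc]; omega
    have h2 : (((Icc 1 x).filter (fun n => Bd 2 n ∧ ∃ p q : ℕ, p.Prime ∧ q.Prime ∧ n = p * q)).card : ℝ) ≤ X := by
      exact_mod_cast h1.trans hsmall.le
    calc (((Icc 1 x).filter (fun n => Bd 2 n ∧ ∃ p q : ℕ, p.Prime ∧ q.Prime ∧ n = p * q)).card : ℝ)
        ≤ (X + 1 + C * (exp c₁ + exp c₂)) * 1 := by linarith
      _ ≤ _ := mul_le_mul_of_nonneg_left hpow1 (by positivity)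
  have hxa : x₁ ≤ x := le_trans (by rw [hX]; exact (le_max_left _ _).trans (le_max_left _ _)) hlarge
  have hxb : x₂ ≤ x := le_trans (by rw [hX]; exact (le_max_right _ _).trans (le_max_left _ _)) hlarge
  have hxc : x₃ ≤ x := le_trans (by rw [hX]; exact (le_max_left _ _).trans (le_max_right _ _)) hlarge
  -- the triples
  obtain ⟨U, hU⟩ : ∃ U : Finset (ℕ × ℕ × ℕ), U = range (x + 1) ×ˢ range (x + 1) ×ˢ range (x + 1) := ⟨_, rfl⟩
  have hmemU : ∀ t ∈ U, t.1 ≤ x ∧ t.2.1 ≤ x ∧ t.2.2 ≤ x := by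
    intro t ht
    rw [hU, mem_product, mem_product, mem_range, mem_range, mem_range] at ht
    omega
  obtain ⟨TE, hTE⟩ : ∃ TE, TE = U.filter (EType δ x) := ⟨_, rfl⟩
  obtain ⟨TF, hTF⟩ : ∃ TF, TF = U.filter (FType δ x) := ⟨_, rfl⟩
  have hcE : (TE.card : ℝ) ≤ C * (x : ℝ) ^ δ * exp (c₁ + (23 / 48 + 4 * δ) * log x) := by
    apply H₄ x hx1 TE _ (exp_nonneg _)
    · intro t ht
      rw [hTE, mem_filter] at ht
      exact hmemU t ht.1
    · intro i j k S hS hS'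
      apply H₁ x hxa i j k S
      intro t ht
      have h1 := hS ht
      rw [hTE, mem_filter] at h1
      exact ⟨h1.2, hS' t ht⟩
  have hcF : (TF.card : ℝ) ≤ C * (x : ℝ) ^ δ * exp (c₂ + (23 / 48 + 4 * δ) * log x) := by
    apply H₄ x hx1 TF _ (exp_nonneg _)
    · intro t ht
      rw [hTF, mem_filter] at ht
      exact hmemU t ht.1
    · intro i j k S hS hS'
      apply H₂ x hxb i j k S
      intro t ht
      have h1 := hS ht
      rw [hTF, mem_filter] at h1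
      exact ⟨h1.2, hS' t ht⟩
  -- the covering
  obtain ⟨Y, hY⟩ : ∃ Y : ℕ, Y = ⌊(x : ℝ) ^ (23 / 48 : ℝ)⌋₊ := ⟨_, rfl⟩
  have hcov : (Icc 1 x).filter (fun n => Bd 2 n ∧ ∃ p q : ℕ, p.Prime ∧ q.Prime ∧ n = p * q) ⊆
      Icc 1 Y ∪ (TE ∪ TF).image (fun t => (1 + t.1 * t.2.1) * (1 + t.1 * t.2.2)) := by
    intro n hn
    rw [mem_filter, mem_Icc] at hn
    obtain ⟨⟨hn1, hnx⟩, hb, p, q, hp, hq, hnpq⟩ := hn
    rw [mem_union, mem_Icc, mem_image]
    rcases le_or_gt (n : ℝ) ((x : ℝ) ^ (23 / 48 : ℝ)) with h | h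
    · left
      exact ⟨hn1, by rw [hY]; exact Nat.le_floor h⟩
    · right
      rw [hnpq] at hb hnx h
      obtain ⟨t, ht, htn⟩ := H₃ x hxc p q hp hq hb hnx h
      refine ⟨t, ?_, by rw [hnpq, htn]⟩
      have hbound : 1 ≤ t.1 → 1 ≤ t.2.1 → 1 ≤ t.2.2 → t ∈ U := by
        intro h1 h2 h3
        obtain ⟨f1, f2, f3, f4, f5, f6⟩ := box_facts h1 h2 h3 (htn ▸ hnx) rfl rfl rfl
        have k1 : t.1 ≤ t.1 * t.2.1 := Nat.le_mul_of_pos_right _ h2
        have k2 : t.2.1 ≤ t.1 * t.2.1 := Nat.le_mul_of_pos_left _ h1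
        have k3 : t.2.2 ≤ t.1 * t.2.2 := Nat.le_mul_of_pos_left _ h1
        rw [hU, mem_product, mem_product, mem_range, mem_range, mem_range]
        omega
      rw [mem_union]
      rcases ht with ht | ht
      · left
        rw [hTE, mem_filter]
        exact ⟨hbound ht.1 ht.2.1 (by have := ht.2.2.1; have := ht.2.1; omega), ht⟩
      · right
        rw [hTF, mem_filter]
        exact ⟨hbound ht.1 ht.2.1 ht.2.2.1, ht⟩
  have h1 := (card_le_card hcov).trans (card_union_le _ _)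
  have h2 : ((TE ∪ TF).image (fun t => (1 + t.1 * t.2.1) * (1 + t.1 * t.2.2))).card ≤ TE.card + TF.card :=
    card_image_le.trans (card_union_le _ _)
  rw [Nat.card_Icc, Nat.add_sub_cancel] at h1
  have h3 : (((Icc 1 x).filter (fun n => Bd 2 n ∧ ∃ p q : ℕ, p.Prime ∧ q.Prime ∧ n = p * q)).card : ℝ) ≤
      Y + (TE.card + TF.card) := by
    exact_mod_cast h1.trans (Nat.add_le_add_left h2 Y)
  have h4 : (Y : ℝ) ≤ (x : ℝ) ^ (23 / 48 + ε) := by
    rw [hY]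
    refine (Nat.floor_le (by positivity)).trans ?_
    exact rpow_le_rpow_of_exponent_le hx1' (by linarith)
  have h5 : ∀ c : ℝ, C * (x : ℝ) ^ δ * exp (c + (23 / 48 + 4 * δ) * log x) ≤ C * exp c * (x : ℝ) ^ (23 / 48 + ε) := by
    intro c
    have e1 : exp (c + (23 / 48 + 4 * δ) * log x) = exp c * (x : ℝ) ^ (23 / 48 + 4 * δ) := by
      rw [exp_add, rpow_def_of_pos hxpos, mul_comm (log (x : ℝ))]
    rw [e1]
    calc C * (x : ℝ) ^ δ * (exp c * (x : ℝ) ^ (23 / 48 + 4 * δ)) =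
          C * exp c * ((x : ℝ) ^ δ * (x : ℝ) ^ (23 / 48 + 4 * δ)) := by ring
      _ = C * exp c * (x : ℝ) ^ (23 / 48 + 5 * δ) := by
          rw [← rpow_add hxpos]
          congr 2
          ring
      _ ≤ _ := mul_le_mul_of_nonneg_left (rpow_le_rpow_of_exponent_le hx1' (by linarith)) (by positivity)
  have h6 := hcE.trans (h5 c₁)
  have h7 := hcF.trans (h5 c₂)
  have h8 : 0 ≤ (X : ℝ) * (x : ℝ) ^ (23 / 48 + ε) := by positivity
  have h9 : (X + 1 + C * (exp c₁ + exp c₂)) * (x : ℝ) ^ (23 / 48 + ε) = X * (x : ℝ) ^ (23 / 48 + ε) +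
      (x : ℝ) ^ (23 / 48 + ε) + C * exp c₁ * (x : ℝ) ^ (23 / 48 + ε) + C * exp c₂ * (x : ℝ) ^ (23 / 48 + ε) := by
    ring
  rw [h9]
  linarith

end Pool.Agent.H46SW
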