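import Pool.Agent.H46SW.Sv

/-!
# Primes modulo which the small primes generate a small group: a larger sieve
-/

set_option autoImplicit false

namespace Pool.Agent.H46SW

open Finset Real Pool.Agent.W57.SW

open Classical in
/-- pairs of congruent elements -/
noncomputable def Pairs (S : Finset ℕ) (p : ℕ) : Finset (ℕ × ℕ) :=
  (S ×ˢ S).filter (fun w => (w.1 : ZMod p) = (w.2 : ZMod p))

lemma pairs_low {S : Finset ℕ} {p g : ℕ} (hp : p.Prime) (hg : 1 ≤ g) (hS : ∀ s ∈ S, (s : ZMod p) ^ g = 1) :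
    S.card ^ 2 ≤ g * (Pairs S p).card := by
  classical
  have : Fact p.Prime := ⟨hp⟩
  obtain ⟨U, hU⟩ : ∃ U : Finset (ZMod p), U = (Polynomial.nthRoots g (1 : ZMod p)).toFinset := ⟨_, rfl⟩
  have hUc : U.card ≤ g := by
    rw [hU]
    exact (Multiset.toFinset_card_le _).trans (Polynomial.card_nthRoots g 1)
  have hmem : ∀ s ∈ S, (s : ZMod p) ∈ U := by
    intro s hs
    rw [hU, Multiset.mem_toFinset, Polynomial.mem_nthRoots (by omega)]
    exact hS s hs
  have h1 : S.card = ∑ z ∈ U, (S.filter (fun s : ℕ => (s : ZMod p) = z)).card :=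
    card_eq_sum_card_fiberwise hmem
  have h2 : (∑ z ∈ U, (S.filter (fun s : ℕ => (s : ZMod p) = z)).card) ^ 2 ≤
      U.card * ∑ z ∈ U, (S.filter (fun s : ℕ => (s : ZMod p) = z)).card ^ 2 :=
    sq_sum_le_card_mul_sum_sq
  have h3 : ∑ z ∈ U, (S.filter (fun s : ℕ => (s : ZMod p) = z)).card ^ 2 ≤ (Pairs S p).card := by
    have g1 : (Pairs S p).card = ∑ z ∈ U, ((Pairs S p).filter (fun w => (w.1 : ZMod p) = z)).card := by
      apply card_eq_sum_card_fiberwise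
      intro w hw
      rw [mem_coe, Pairs, mem_filter, mem_product] at hw
      exact hmem _ hw.1.1
    rw [g1]
    apply sum_le_sum
    intro z _
    rw [sq, ← card_product]
    apply card_le_card
    intro w hw
    rw [mem_product, mem_filter, mem_filter] at hw
    rw [mem_filter, Pairs, mem_filter, mem_product]
    exact ⟨⟨⟨hw.1.1, hw.2.1⟩, by rw [hw.1.2, hw.2.2]⟩, hw.1.2⟩
  calc S.card ^ 2 = (∑ z ∈ U, (S.filter (fun s : ℕ => (s : ZMod p) = z)).card) ^ 2 := by rw [← h1]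
    _ ≤ U.card * ∑ z ∈ U, (S.filter (fun s : ℕ => (s : ZMod p) = z)).card ^ 2 := h2
    _ ≤ g * (Pairs S p).card := Nat.mul_le_mul hUc h3

lemma card_pf {m T : ℕ} (hm : m ≠ 0) (hT : m ≤ 2 ^ T) : m.primeFactors.card ≤ T := by
  have h1 : 2 ^ m.primeFactors.card ≤ m := by
    calc 2 ^ m.primeFactors.card = ∏ _p ∈ m.primeFactors, 2 := by rw [prod_const]
      _ ≤ ∏ p ∈ m.primeFactors, p :=
          prod_le_prod' fun p hp => (Nat.prime_of_mem_primeFactors hp).two_le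
      _ ≤ m := Nat.le_of_dvd (Nat.pos_of_ne_zero hm) (Nat.prod_primeFactors_dvd m)
  exact (Nat.pow_le_pow_iff_right (by norm_num)).mp (h1.trans hT)

lemma pairs_up (Q S : Finset ℕ) (hQ : ∀ p ∈ Q, p.Prime) {T : ℕ} (hS : ∀ s ∈ S, s ≤ 2 ^ T) :
    ∑ p ∈ Q, (Pairs S p).card ≤ Q.card * S.card + T * S.card ^ 2 := by
  classical
  have h1 : ∑ p ∈ Q, (Pairs S p).card =
      ∑ w ∈ S ×ˢ S, (Q.filter (fun p : ℕ => (w.1 : ZMod p) = (w.2 : ZMod p))).card := by
    have e : ∀ p ∈ Q, (Pairs S p).card =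
        ∑ w ∈ S ×ˢ S, if (w.1 : ZMod p) = (w.2 : ZMod p) then 1 else 0 := by
      intro p _
      rw [Pairs, card_filter]
    rw [sum_congr rfl e, sum_comm]
    apply sum_congr rfl
    intro w _
    rw [card_filter]
  rw [h1]
  have h2 : ∀ w ∈ S ×ˢ S, (Q.filter (fun p : ℕ => (w.1 : ZMod p) = (w.2 : ZMod p))).card ≤
      (if w.1 = w.2 then Q.card else 0) + T := by
    intro w hw
    rw [mem_product] at hw
    split_ifs with h
    · exact (card_filter_le _ _).trans (by omega)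
    · rw [zero_add]
      obtain ⟨m, hm⟩ : ∃ m, m = (w.1 - w.2) + (w.2 - w.1) := ⟨_, rfl⟩
      have hm0 : m ≠ 0 := by omega
      have a1 := hS _ hw.1
      have a2 := hS _ hw.2
      have hmT : m ≤ 2 ^ T := by omega
      refine le_trans (card_le_card ?_) (card_pf hm0 hmT)
      intro p hp
      rw [mem_filter] at hp
      rw [Nat.mem_primeFactors]
      refine ⟨hQ p hp.1, ?_, hm0⟩
      have h3 := hp.2
      rw [ZMod.natCast_eq_natCast_iff] at h3
      rcases le_total w.1 w.2 with h4 | h4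
      · have : m = w.2 - w.1 := by omega
        rw [this]
        exact (Nat.modEq_iff_dvd' h4).mp h3
      · have : m = w.1 - w.2 := by omega
        rw [this]
        exact (Nat.modEq_iff_dvd' h4).mp h3.symm
  refine (sum_le_sum h2).trans (le_of_eq ?_)
  rw [sum_add_distrib, sum_const, card_product, smul_eq_mul]
  have h3 : ∑ w ∈ S ×ˢ S, (if w.1 = w.2 then Q.card else 0) = Q.card * S.card := by
    rw [sum_product]
    have : ∀ s ∈ S, ∑ s' ∈ S, (if ((s, s') : ℕ × ℕ).1 = ((s, s') : ℕ × ℕ).2 then Q.card else 0) =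
        Q.card := by
      intro s hs
      show ∑ s' ∈ S, (if s = s' then Q.card else 0) = Q.card
      rw [sum_ite_eq, if_pos hs]
    rw [sum_congr rfl this, sum_const, smul_eq_mul, mul_comm]
  rw [h3]
  ring

theorem mt (ε : ℝ) (hε : 0 < ε) (hε1 : ε ≤ 1 / 20) : ∃ (C : ℝ) (x₀ : ℕ), 1 ≤ C ∧ ∀ x : ℕ, x₀ ≤ x →
    ∀ G : ℕ, 1 ≤ G → G ≤ x → ∀ Q : Finset ℕ,
    (∀ p ∈ Q, p.Prime ∧ ∃ g : ℕ, 1 ≤ g ∧ g ≤ G ∧ ∀ ℓ ∈ Pr ε x, (ℓ : ZMod p) ^ g = 1) →
    (Q.card : ℝ) ≤ C * (x : ℝ) ^ ε * G := by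
  classical
  obtain ⟨C, x₀, hC, H⟩ := smooth1 ε hε hε1
  have hC0 : 0 < C := by linarith
  have hev : ∀ᶠ x : ℕ in Filter.atTop, 2 * C ≤ (x : ℝ) ^ (1 / 5 : ℝ) :=
    ((tendsto_rpow_atTop (by norm_num : (0 : ℝ) < 1 / 5)).comp tendsto_natCast_atTop_atTop).eventually_ge_atTop _
  obtain ⟨x₁, hx₁⟩ := Filter.eventually_atTop.1 hev
  refine ⟨12 * (1 / ε + 1), max (max x₀ x₁) 2, ?_, fun x hx G hG1 hGx Q hQ => ?_⟩
  · have : 0 < 1 / ε := by positivity
    linarith
  have hx2 : 2 ≤ x := (le_max_right _ _).trans hx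
  have hxa : x₀ ≤ x := ((le_max_left _ _).trans (le_max_left _ _)).trans hx
  have hxb : x₁ ≤ x := ((le_max_right _ _).trans (le_max_left _ _)).trans hx
  have hx1' : (1 : ℝ) ≤ x := by exact_mod_cast (by omega : 1 ≤ x)
  have hxpos : (0 : ℝ) < x := by linarith
  obtain ⟨S, hS1, hS2⟩ := H x hxa (x ^ 3) (Nat.one_le_pow _ _ (by omega)) le_rfl
  -- the set is large
  have hSG : 2 * (G : ℝ) ≤ S.card := by
    have h1 : (2 * C) * x ≤ C * S.card := by
      calc (2 * C) * x ≤ (x : ℝ) ^ (1 / 5 : ℝ) * x := mul_le_mul_of_nonneg_right (hx₁ x hxb) hxpos.le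
        _ = (x : ℝ) ^ (6 / 5 : ℝ) := by
            nth_rewrite 2 [← rpow_one (x : ℝ)]
            rw [← rpow_add hxpos]
            norm_num
        _ ≤ (x : ℝ) ^ (3 * (1 / 2 - 2 * ε)) := by
            apply rpow_le_rpow_of_exponent_le hx1'
            linarith
        _ = ((x ^ 3 : ℕ) : ℝ) ^ (1 / 2 - 2 * ε) := by
            rw [rpow_mul hxpos.le]
            congr 1
            push_cast
            norm_num
        _ ≤ _ := hS2
    have h2 : 2 * (x : ℝ) ≤ S.card := by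
      have : C * (2 * x) ≤ C * S.card := by linarith
      exact le_of_mul_le_mul_left this hC0
    have h3 : (G : ℝ) ≤ x := by exact_mod_cast hGx
    linarith
  obtain ⟨T, hT⟩ : ∃ T : ℕ, T = 3 * (Nat.log 2 x + 1) := ⟨_, rfl⟩
  have hST : ∀ s ∈ S, s ≤ 2 ^ T := by
    intro s hs
    refine (hS1 s hs).2.1.trans ?_
    rw [hT, mul_comm, pow_mul]
    exact Nat.pow_le_pow_left (Nat.lt_pow_succ_log_self (by norm_num) x).le 3
  have hup := pairs_up Q S (fun p hp => (hQ p hp).1) hST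
  have hlow : ∀ p ∈ Q, S.card ^ 2 ≤ G * (Pairs S p).card := by
    intro p hp
    obtain ⟨hpp, g, hg1, hgG, hg⟩ := hQ p hp
    refine (pairs_low hpp hg1 (fun s hs => ?_)).trans (Nat.mul_le_mul_right _ hgG)
    obtain ⟨a1, a2, a3, a4, a5⟩ := hS1 s hs
    exact pow_eq_one_of_primes s a1 fun r hr hrs => hg r (a5 r hr hrs)
  have h1 : Q.card * S.card ^ 2 ≤ G * (Q.card * S.card + T * S.card ^ 2) := by
    calc Q.card * S.card ^ 2 = ∑ _p ∈ Q, S.card ^ 2 := by rw [sum_const, smul_eq_mul]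
      _ ≤ ∑ p ∈ Q, G * (Pairs S p).card := sum_le_sum hlow
      _ = G * ∑ p ∈ Q, (Pairs S p).card := by rw [mul_sum]
      _ ≤ _ := Nat.mul_le_mul_left _ hup
  have h1r : (Q.card : ℝ) * (S.card : ℝ) ^ 2 ≤ G * (Q.card * S.card + T * (S.card : ℝ) ^ 2) := by
    exact_mod_cast h1
  have hS0 : (0 : ℝ) < S.card := by
    have : (1 : ℝ) ≤ G := by exact_mod_cast hG1
    linarith
  have hQ0 : (0 : ℝ) ≤ Q.card := Nat.cast_nonneg _
  have h2 : (Q.card : ℝ) ≤ 2 * G * T := by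
    have h3 : (G : ℝ) * (Q.card * S.card) ≤ Q.card * (S.card : ℝ) ^ 2 / 2 := by
      have : 0 ≤ (Q.card : ℝ) * S.card := by positivity
      nlinarith
    have h4 : (Q.card : ℝ) * (S.card : ℝ) ^ 2 ≤ (2 * G * T) * (S.card : ℝ) ^ 2 := by nlinarith
    exact le_of_mul_le_mul_right h4 (by positivity)
  have hTx : (T : ℝ) ≤ 6 * (1 / ε + 1) * (x : ℝ) ^ ε := by
    have h3 : (Nat.log 2 x : ℝ) ≤ 2 * log x := by
      have h4 : (2 : ℝ) ^ (Nat.log 2 x) ≤ x := by exact_mod_cast Nat.pow_log_le_self 2 (by omega)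
      have h5 := log_le_log (by positivity) h4
      rw [log_pow] at h5
      have h6 := log_two_gt_d9
      have h7 : (0 : ℝ) ≤ Nat.log 2 x := Nat.cast_nonneg _
      nlinarith
    have h4 : log (x : ℝ) ≤ (x : ℝ) ^ ε / ε := log_le_rpow_div hxpos.le hε
    have h5 : 1 ≤ (x : ℝ) ^ ε := one_le_rpow hx1' hε.le
    rw [hT]
    push_cast
    have h6 : (x : ℝ) ^ ε / ε = 1 / ε * (x : ℝ) ^ ε := by ring
    rw [h6] at h4
    have h7 : 0 ≤ 1 / ε * (x : ℝ) ^ ε := by positivity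
    nlinarith
  calc (Q.card : ℝ) ≤ 2 * G * T := h2
    _ ≤ 2 * G * (6 * (1 / ε + 1) * (x : ℝ) ^ ε) := mul_le_mul_of_nonneg_left hTx (by positivity)
    _ = _ := by ring

end Pool.Agent.H46SW
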