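import Pool.Agent.H46SW.Box

/-!
# Products of two primes without a small witness: the counts
-/

set_option autoImplicit false

namespace Pool.Agent.H46SW

open Finset Real Pool.Agent.W57.SW Pool.Agent.H379R2.W

/-- pairs of primes with the same symbols -/
def EType (ε : ℝ) (x : ℕ) (t : ℕ × ℕ × ℕ) : Prop :=
  1 ≤ t.1 ∧ 1 ≤ t.2.1 ∧ t.2.1 < t.2.2 ∧ (1 + t.1 * t.2.1).Prime ∧ (1 + t.1 * t.2.2).Prime ∧
    (1 + t.1 * t.2.1) * (1 + t.1 * t.2.2) ≤ x ∧ Odd (1 + t.1 * t.2.1) ∧ Odd (1 + t.1 * t.2.2) ∧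
    (∀ ℓ ∈ Pr ε x, (ℓ : ZMod (1 + t.1 * t.2.2)) ^ t.1 = 1) ∧
    ∀ ℓ ∈ Pr ε x, jacobiSym (ℓ : ℤ) (1 + t.1 * t.2.1) = jacobiSym (ℓ : ℤ) (1 + t.1 * t.2.2) ∧
      (jacobiSym (ℓ : ℤ) (1 + t.1 * t.2.2) = 1 ∨ jacobiSym (ℓ : ℤ) (1 + t.1 * t.2.2) = -1)

/-- the symbols of the second prime are one -/
def FType (ε : ℝ) (x : ℕ) (t : ℕ × ℕ × ℕ) : Prop :=
  1 ≤ t.1 ∧ 1 ≤ t.2.1 ∧ 1 ≤ t.2.2 ∧ (1 + t.1 * t.2.1).Prime ∧ (1 + t.1 * t.2.2).Prime ∧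
    (1 + t.1 * t.2.1) * (1 + t.1 * t.2.2) ≤ x ∧ Odd (1 + t.1 * t.2.1) ∧ Odd (1 + t.1 * t.2.2) ∧
    (∀ ℓ ∈ Pr ε x, (ℓ : ZMod (1 + t.1 * t.2.1)) ^ t.1 = 1) ∧
    (∀ ℓ ∈ Pr ε x, jacobiSym (ℓ : ℤ) (1 + t.1 * t.2.2) = 1) ∧
    (1 / 2 - ε) * log t.2.2 ≤ (1 / 2 + ε) * log t.1

lemma log_card_le {N C E : ℝ} (hN : 0 < N) (hC : 0 < C) (h : N ≤ C * exp E) : log N ≤ log C + E := by
  have h1 := log_le_log hN h
  rwa [log_mul hC.ne' (exp_ne_zero _), log_exp] at h1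

lemma box_facts {x g a b i j k : ℕ} (hg : 1 ≤ g) (ha : 1 ≤ a) (hb : 1 ≤ b)
    (hx : (1 + g * a) * (1 + g * b) ≤ x) (hi : Nat.log 2 g = i) (hj : Nat.log 2 a = j) (hk : Nat.log 2 b = k) :
    2 ^ (i + 1) ≤ x ∧ 2 ^ (j + 1) ≤ x ∧ 2 ^ (k + 1) ≤ x ∧
      2 * (i * log 2) + j * log 2 + k * log 2 ≤ log x ∧ 1 + g * a ≤ x ∧ 1 + g * b ≤ x := by
  have hi1 : 2 ^ i ≤ g := by rw [← hi]; exact Nat.pow_log_le_self 2 (by omega)
  have hj1 : 2 ^ j ≤ a := by rw [← hj]; exact Nat.pow_log_le_self 2 (by omega)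
  have hk1 : 2 ^ k ≤ b := by rw [← hk]; exact Nat.pow_log_le_self 2 (by omega)
  have hga : g ≤ g * a := Nat.le_mul_of_pos_right _ ha
  have hga' : a ≤ g * a := Nat.le_mul_of_pos_left _ hg
  have hgb : g ≤ g * b := Nat.le_mul_of_pos_right _ hb
  have hgb' : b ≤ g * b := Nat.le_mul_of_pos_left _ hg
  have e : (1 + g * a) * (1 + g * b) = 1 + g * a + g * b + g * a * (g * b) := by ring
  rw [e] at hx
  have hp : 1 ≤ g * a * (g * b) := Nat.mul_pos (Nat.mul_pos hg ha) (Nat.mul_pos hg hb)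
  have hp1 : g * a ≤ g * a * (g * b) := Nat.le_mul_of_pos_right _ (Nat.mul_pos hg hb)
  have hp2 : g * b ≤ g * a * (g * b) := Nat.le_mul_of_pos_left _ (Nat.mul_pos hg ha)
  refine ⟨by rw [pow_succ]; omega, by rw [pow_succ]; omega, by rw [pow_succ]; omega, ?_, by omega, by omega⟩
  have h1 : (2 ^ i * 2 ^ j) * (2 ^ i * 2 ^ k) ≤ x :=
    (Nat.mul_le_mul (Nat.mul_le_mul hi1 hj1) (Nat.mul_le_mul hi1 hk1)).trans (by omega)
  have h2 : (2 : ℝ) ^ (2 * i + j + k) ≤ x := by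
    have : (2 ^ i * 2 ^ j) * (2 ^ i * 2 ^ k) = 2 ^ (2 * i + j + k) := by
      rw [← pow_add, ← pow_add, ← pow_add]
      congr 1
      ring
    rw [this] at h1
    exact_mod_cast h1
  have h3 := log_le_log (by positivity) h2
  rw [log_pow] at h3
  push_cast at h3
  linarith

theorem boxE (ε : ℝ) (hε : 0 < ε) (hε1 : ε ≤ 1 / 20) : ∃ (c : ℝ) (x₀ : ℕ), ∀ x : ℕ, x₀ ≤ x →
    ∀ i j k : ℕ, ∀ T : Finset (ℕ × ℕ × ℕ),
    (∀ t ∈ T, EType ε x t ∧ Nat.log 2 t.1 = i ∧ Nat.log 2 t.2.1 = j ∧ Nat.log 2 t.2.2 = k) →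
    (T.card : ℝ) ≤ exp (c + (23 / 48 + 4 * ε) * log x) := by
  classical
  obtain ⟨C₁, x₁, hC₁, H₁⟩ := cu ε hε hε1
  obtain ⟨C₂, x₂, hC₂, H₂⟩ := cv ε hε hε1
  refine ⟨log C₁ + log C₂ + 10, max (max x₁ x₂) 1, fun x hx i j k T hT => ?_⟩
  have hxa : x₁ ≤ x := ((le_max_left _ _).trans (le_max_left _ _)).trans hx
  have hxb : x₂ ≤ x := ((le_max_right _ _).trans (le_max_left _ _)).trans hx
  have hx1 : 1 ≤ x := (le_max_right _ _).trans hx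
  have hxpos : (0 : ℝ) < x := by exact_mod_cast hx1
  rcases T.eq_empty_or_nonempty with h0 | h0
  · rw [h0]
    simp only [card_empty, Nat.cast_zero]
    positivity
  have hN : (0 : ℝ) < T.card := by exact_mod_cast card_pos.2 h0
  obtain ⟨t₀, ht₀⟩ := h0
  obtain ⟨⟨s1, s2, s3, s4, s5, s6, _⟩, l1, l2, l3⟩ := hT t₀ ht₀
  obtain ⟨f1, f2, f3, f4, f5, f6⟩ := box_facts s1 s2 (by omega) s6 l1 l2 l3
  have hjk : j ≤ k := by
    rw [← l2, ← l3]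
    exact Nat.log_mono_right s3.le
  have hup : ∀ n m : ℕ, 1 ≤ n → Nat.log 2 n = m → n ≤ 2 ^ (m + 1) := by
    intro n m _ h
    rw [← h]
    exact (Nat.lt_pow_succ_log_self (by norm_num) n).le
  -- first bound
  have hU : (T.card : ℝ) ≤ C₁ * (x : ℝ) ^ (4 * ε) * (2 ^ (i + 1) : ℕ) * ((2 ^ (j + 1) : ℕ) : ℝ) ^ (3 / 4 : ℝ) := by
    have hcard : T.card = (T.image (fun t => (t.1, t.2.2, t.2.1))).card := by
      rw [card_image_of_injective]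
      intro t t' h
      rw [Prod.mk.injEq, Prod.mk.injEq] at h
      exact Prod.ext h.1 (Prod.ext h.2.2 h.2.1)
    rw [hcard]
    apply H₁ x hxa (2 ^ (i + 1)) (2 ^ (j + 1)) Nat.one_le_two_pow f1 Nat.one_le_two_pow f2 _
      (fun g b ℓ => jacobiSym (ℓ : ℤ) (1 + g * b))
    intro t ht
    rw [mem_image] at ht
    obtain ⟨w, hw, rfl⟩ := ht
    obtain ⟨⟨a1, a2, a3, a4, a5, a6, a7, a8, a9, a10⟩, b1, b2, b3⟩ := hT w hw
    obtain ⟨g1, g2, g3, g4, g5, g6⟩ := box_facts a1 a2 (by omega) a6 b1 b2 b3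
    refine ⟨a1, hup _ _ a1 b1, by simp only; omega, a2, hup _ _ a2 b2, a5, g6, a9, a7, fun ℓ hℓ => ?_⟩
    obtain ⟨c1, c2⟩ := a10 ℓ hℓ
    refine ⟨c1, ?_⟩
    rcases c2 with c2 | c2 <;> simp only [c2] <;> norm_num
  -- second bound
  have hV : (T.card : ℝ) ≤ C₂ * (x : ℝ) ^ (2 * ε) * ((2 ^ (i + 1) : ℕ) : ℝ) ^ (3 / 4 : ℝ) * (2 ^ (j + 1) : ℕ) *
      (2 ^ (k + 1) : ℕ) := by
    apply H₂ x hxb (2 ^ (i + 1)) (2 ^ (j + 1)) (2 ^ (k + 1)) Nat.one_le_two_pow f1 f2 f3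
    intro t ht
    obtain ⟨⟨a1, a2, a3, a4, a5, a6, a7, a8, a9, a10⟩, b1, b2, b3⟩ := hT t ht
    refine ⟨a1, hup _ _ a1 b1, a2, hup _ _ a2 b2, by omega, hup _ _ (by omega) b3, by omega, a7, a8, fun ℓ hℓ => ?_⟩
    obtain ⟨c1, c2⟩ := a10 ℓ hℓ
    rw [c1]
    rcases c2 with c2 | c2 <;> rw [c2] <;> norm_num
  have hlx : ∀ c : ℝ, (x : ℝ) ^ c = exp (c * log x) := by
    intro c
    rw [rpow_def_of_pos hxpos, mul_comm]
  have hl2 : ∀ m : ℕ, ((2 ^ (m + 1) : ℕ) : ℝ) = exp ((m + 1) * log 2) := by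
    intro m
    push_cast
    rw [← rpow_natCast, rpow_def_of_pos (by norm_num)]
    push_cast
    rw [mul_comm]
  have hl2r : ∀ (m : ℕ) (c : ℝ), ((2 ^ (m + 1) : ℕ) : ℝ) ^ c = exp (c * ((m + 1) * log 2)) := by
    intro m c
    rw [hl2, ← exp_mul]
    congr 1
    ring
  rw [hlx, hl2r, hl2] at hU
  rw [hlx, hl2r, hl2, hl2] at hV
  have hU' := log_card_le (C := C₁) (E := 4 * ε * log x + (i + 1) * log 2 + 3 / 4 * ((j + 1) * log 2)) hN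
    (by linarith) (hU.trans (le_of_eq (by rw [exp_add, exp_add]; ring)))
  have hV' := log_card_le (C := C₂) (E := 2 * ε * log x + 3 / 4 * ((i + 1) * log 2) + (j + 1) * log 2 +
    (k + 1) * log 2) hN (by linarith) (hV.trans (le_of_eq (by rw [exp_add, exp_add, exp_add]; ring)))
  rw [← log_le_iff_le_exp hN]
  have hc1 : 0 ≤ log C₁ := log_nonneg hC₁
  have hc2 : 0 ≤ log C₂ := log_nonneg hC₂
  have hL : 0 ≤ log (x : ℝ) := log_natCast_nonneg x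
  have hεL : 0 ≤ ε * log x := by positivity
  have h2 := log_two_lt_d9
  have h2' := log_two_gt_d9
  have hjk' : (j : ℝ) * log 2 ≤ k * log 2 := by
    apply mul_le_mul_of_nonneg_right _ (by linarith)
    exact_mod_cast hjk
  obtain ⟨I, hI⟩ : ∃ I : ℝ, I = i * log 2 := ⟨_, rfl⟩
  obtain ⟨J, hJ⟩ : ∃ J : ℝ, J = j * log 2 := ⟨_, rfl⟩
  obtain ⟨K, hK⟩ : ∃ K : ℝ, K = k * log 2 := ⟨_, rfl⟩
  rw [← hJ, ← hK] at hjk'
  rw [← hI, ← hJ, ← hK] at f4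
  rw [add_mul, add_mul, ← hI, ← hJ] at hU'
  rw [add_mul, add_mul, add_mul, ← hI, ← hJ, ← hK] at hV'
  linarith

theorem boxF (ε : ℝ) (hε : 0 < ε) (hε1 : ε ≤ 1 / 20) : ∃ (c : ℝ) (x₀ : ℕ), ∀ x : ℕ, x₀ ≤ x →
    ∀ i j k : ℕ, ∀ T : Finset (ℕ × ℕ × ℕ),
    (∀ t ∈ T, FType ε x t ∧ Nat.log 2 t.1 = i ∧ Nat.log 2 t.2.1 = j ∧ Nat.log 2 t.2.2 = k) →
    (T.card : ℝ) ≤ exp (c + (23 / 48 + 4 * ε) * log x) := by
  classical
  obtain ⟨C₁, x₁, hC₁, H₁⟩ := cu ε hε hε1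
  obtain ⟨C₂, hC₂, H₂⟩ := cw ε hε hε1
  refine ⟨log C₁ + log C₂ + 10, max x₁ 1, fun x hx i j k T hT => ?_⟩
  have hxa : x₁ ≤ x := (le_max_left _ _).trans hx
  have hx1 : 1 ≤ x := (le_max_right _ _).trans hx
  have hxpos : (0 : ℝ) < x := by exact_mod_cast hx1
  rcases T.eq_empty_or_nonempty with h0 | h0
  · rw [h0]
    simp only [card_empty, Nat.cast_zero]
    positivity
  have hN : (0 : ℝ) < T.card := by exact_mod_cast card_pos.2 h0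
  obtain ⟨t₀, ht₀⟩ := h0
  obtain ⟨⟨s1, s2, s3, s4, s5, s6, _, _, _, _, s11⟩, l1, l2, l3⟩ := hT t₀ ht₀
  obtain ⟨f1, f2, f3, f4, f5, f6⟩ := box_facts s1 s2 s3 s6 l1 l2 l3
  have hup : ∀ n m : ℕ, 1 ≤ n → Nat.log 2 n = m → n ≤ 2 ^ (m + 1) := by
    intro n m _ h
    rw [← h]
    exact (Nat.lt_pow_succ_log_self (by norm_num) n).le
  -- first bound
  have hU : (T.card : ℝ) ≤ C₁ * (x : ℝ) ^ (4 * ε) * (2 ^ (i + 1) : ℕ) * ((2 ^ (k + 1) : ℕ) : ℝ) ^ (3 / 4 : ℝ) := by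
    apply H₁ x hxa (2 ^ (i + 1)) (2 ^ (k + 1)) Nat.one_le_two_pow f1 Nat.one_le_two_pow f3 _ (fun _ _ _ => 1)
    intro t ht
    obtain ⟨⟨a1, a2, a3, a4, a5, a6, a7, a8, a9, a10, a11⟩, b1, b2, b3⟩ := hT t ht
    obtain ⟨g1, g2, g3, g4, g5, g6⟩ := box_facts a1 a2 a3 a6 b1 b2 b3
    exact ⟨a1, hup _ _ a1 b1, a2, a3, hup _ _ a3 b3, a4, g5, a9, a8, fun ℓ hℓ => ⟨a10 ℓ hℓ, one_ne_zero⟩⟩
  -- second bound
  have hV : (T.card : ℝ) ≤ C₂ * (x : ℝ) ^ (2 * ε) * (((2 ^ (i + 1) : ℕ) : ℝ) * (2 ^ (k + 1) : ℕ)) ^ (1 / 2 : ℝ) *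
      (2 ^ (j + 1) : ℕ) := by
    apply H₂ x hx1 (2 ^ (i + 1)) (2 ^ (j + 1)) (2 ^ (k + 1)) Nat.one_le_two_pow Nat.one_le_two_pow
    intro t ht
    obtain ⟨⟨a1, a2, a3, a4, a5, a6, a7, a8, a9, a10, a11⟩, b1, b2, b3⟩ := hT t ht
    obtain ⟨g1, g2, g3, g4, g5, g6⟩ := box_facts a1 a2 a3 a6 b1 b2 b3
    exact ⟨a1, hup _ _ a1 b1, a2, hup _ _ a2 b2, a3, hup _ _ a3 b3, a5, g6, a8, a10⟩
  have hlx : ∀ c : ℝ, (x : ℝ) ^ c = exp (c * log x) := by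
    intro c
    rw [rpow_def_of_pos hxpos, mul_comm]
  have hl2 : ∀ m : ℕ, ((2 ^ (m + 1) : ℕ) : ℝ) = exp ((m + 1) * log 2) := by
    intro m
    push_cast
    rw [← rpow_natCast, rpow_def_of_pos (by norm_num)]
    push_cast
    rw [mul_comm]
  have hl2r : ∀ (m : ℕ) (c : ℝ), ((2 ^ (m + 1) : ℕ) : ℝ) ^ c = exp (c * ((m + 1) * log 2)) := by
    intro m c
    rw [hl2, ← exp_mul]
    congr 1
    ring
  rw [hlx, hl2r, hl2] at hU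
  have hprod : (((2 ^ (i + 1) : ℕ) : ℝ) * (2 ^ (k + 1) : ℕ)) ^ (1 / 2 : ℝ) =
      exp (1 / 2 * ((i + 1) * log 2) + 1 / 2 * ((k + 1) * log 2)) := by
    rw [hl2, hl2, ← exp_add, ← exp_mul]
    congr 1
    ring
  rw [hlx, hprod, hl2] at hV
  have hU' := log_card_le (C := C₁) (E := 4 * ε * log x + (i + 1) * log 2 + 3 / 4 * ((k + 1) * log 2)) hN
    (by linarith) (hU.trans (le_of_eq (by rw [exp_add, exp_add]; ring)))
  have hV' := log_card_le (C := C₂) (E := 2 * ε * log x + (1 / 2 * ((i + 1) * log 2) + 1 / 2 * ((k + 1) * log 2)) +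
    (j + 1) * log 2) hN (by linarith) (hV.trans (le_of_eq (by
      rw [exp_add (2 * ε * log x + _), exp_add (2 * ε * log x)]; ring)))
  rw [← log_le_iff_le_exp hN]
  have hc1 : 0 ≤ log C₁ := log_nonneg hC₁
  have hc2 : 0 ≤ log C₂ := log_nonneg hC₂
  have hL : 0 ≤ log (x : ℝ) := log_natCast_nonneg x
  have hεL : 0 ≤ ε * log x := by positivity
  have h2 := log_two_lt_d9
  have h2' := log_two_gt_d9
  -- `b` is at most about `g`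
  have hk1 : (k : ℝ) * log 2 ≤ log t₀.2.2 := by
    have h3 : (2 : ℝ) ^ k ≤ t₀.2.2 := by
      have : 2 ^ k ≤ t₀.2.2 := by rw [← l3]; exact Nat.pow_log_le_self 2 (by omega)
      exact_mod_cast this
    have h4 := log_le_log (by positivity) h3
    rwa [log_pow] at h4
  have hi1 : log t₀.1 ≤ (i + 1) * log 2 := by
    have h3 : (t₀.1 : ℝ) ≤ 2 ^ (i + 1) := by exact_mod_cast hup _ _ s1 l1
    have h4 := log_le_log (by exact_mod_cast s1) h3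
    rw [log_pow] at h4
    push_cast at h4
    exact h4
  have hki : (1 / 2 - ε) * (k * log 2) ≤ (1 / 2 + ε) * ((i + 1) * log 2) := by
    calc (1 / 2 - ε) * (k * log 2) ≤ (1 / 2 - ε) * log t₀.2.2 := mul_le_mul_of_nonneg_left hk1 (by linarith)
      _ ≤ (1 / 2 + ε) * log t₀.1 := s11
      _ ≤ _ := mul_le_mul_of_nonneg_left hi1 (by linarith)
  obtain ⟨I, hI⟩ : ∃ I : ℝ, I = i * log 2 := ⟨_, rfl⟩
  obtain ⟨J, hJ⟩ : ∃ J : ℝ, J = j * log 2 := ⟨_, rfl⟩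
  obtain ⟨K, hK⟩ : ∃ K : ℝ, K = k * log 2 := ⟨_, rfl⟩
  have hI0 : 0 ≤ I := by rw [hI]; exact mul_nonneg (Nat.cast_nonneg _) (by linarith)
  have hJ0 : 0 ≤ J := by rw [hJ]; exact mul_nonneg (Nat.cast_nonneg _) (by linarith)
  have hK0 : 0 ≤ K := by rw [hK]; exact mul_nonneg (Nat.cast_nonneg _) (by linarith)
  rw [← hI, ← hJ, ← hK] at f4
  rw [add_mul, add_mul, ← hI, ← hK] at hU'
  rw [add_mul, add_mul, add_mul, ← hI, ← hJ, ← hK] at hV'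
  rw [add_mul (i : ℝ) 1 (log 2), ← hI, ← hK] at hki
  have hKI : K - I ≤ 2 * ε * log x + 1 := by
    have h5 : ε * (K + I) ≤ ε * log x := mul_le_mul_of_nonneg_left (by linarith) hε.le
    nlinarith
  nlinarith

end Pool.Agent.H46SW
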