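import Pool.Agent.H46SW.Als
import Pool.Agent.W57.SW.Count

/-!
# Smooth numbers, and the sieve by the small primes

`Pr ε x` is the set of the odd primes up to `(log x) ^ (2 / (1 + ε))`.
-/

set_option autoImplicit false

namespace Pool.Agent.H46SW

open Finset Real Pool.Agent.W57.SW

/-- the small odd primes -/
noncomputable def Pr (ε : ℝ) (x : ℕ) : Finset ℕ := opr ⌊(log x) ^ (2 / (1 + ε))⌋₊

lemma mem_Pr {ε : ℝ} {x ℓ : ℕ} : ℓ ∈ Pr ε x ↔ ℓ.Prime ∧ (ℓ : ℝ) ≤ (log x) ^ (2 / (1 + ε)) ∧ ℓ ≠ 2 := by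
  unfold Pr
  rw [mem_opr]
  have h0 : 0 ≤ (log (x : ℝ)) ^ (2 / (1 + ε)) := rpow_nonneg (log_natCast_nonneg x) _
  constructor
  · rintro ⟨h1, h2, h3⟩
    exact ⟨h1, (Nat.le_floor_iff h0).1 h2, h3⟩
  · rintro ⟨h1, h2, h3⟩
    exact ⟨h1, (Nat.le_floor_iff h0).2 h2, h3⟩

theorem smooth1 (ε : ℝ) (hε : 0 < ε) (hε1 : ε ≤ 1 / 20) : ∃ (C : ℝ) (x₀ : ℕ), 1 ≤ C ∧ ∀ x : ℕ, x₀ ≤ x →
    ∀ D : ℕ, 1 ≤ D → D ≤ x ^ 3 → ∃ S : Finset ℕ,
    (∀ s ∈ S, 1 ≤ s ∧ s ≤ D ∧ Odd s ∧ Squarefree s ∧ ∀ p : ℕ, p.Prime → p ∣ s → p ∈ Pr ε x) ∧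
    (D : ℝ) ^ (1 / 2 - 2 * ε) ≤ C * S.card := by
  obtain ⟨A₂, hA₂⟩ : ∃ A₂ : ℝ, A₂ = 2 / (1 + 2 * ε) := ⟨_, rfl⟩
  obtain ⟨A₁, hA₁⟩ : ∃ A₁ : ℝ, A₁ = 2 / (1 + ε) := ⟨_, rfl⟩
  have h21 : A₂ < A₁ := by
    rw [hA₁, hA₂]
    apply div_lt_div_of_pos_left (by norm_num) (by linarith) (by linarith)
  have h2 : 1 < A₂ := by
    rw [hA₂, lt_div_iff₀ (by linarith)]
    linarith
  have h2' : A₂ ≤ 2 := by
    rw [hA₂, div_le_iff₀ (by linarith)]
    nlinarith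
  obtain ⟨D₀, hD₀⟩ := smooth_many A₂ ε h2 hε
  have hev : ∀ᶠ x : ℕ in Filter.atTop, (9 : ℝ) ≤ (log x) ^ (A₁ - A₂) ∧ 1 ≤ log (x : ℝ) := by
    have hl : Filter.Tendsto (fun x : ℕ => log (x : ℝ)) Filter.atTop Filter.atTop :=
      tendsto_log_atTop.comp tendsto_natCast_atTop_atTop
    have h3 := (tendsto_rpow_atTop (sub_pos.2 h21)).comp hl
    exact (h3.eventually_ge_atTop 9).and (hl.eventually_ge_atTop 1)
  obtain ⟨x₀, hx₀⟩ := Filter.eventually_atTop.1 hev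
  refine ⟨max 1 (D₀ : ℝ), max x₀ 1, le_max_left _ _, fun x hx D hD1 hDx => ?_⟩
  have hx1 : 1 ≤ x := (le_max_right _ _).trans hx
  obtain ⟨g1, g2⟩ := hx₀ x ((le_max_left _ _).trans hx)
  have hexp : 1 - 1 / A₂ - ε = 1 / 2 - 2 * ε := by
    rw [hA₂]
    field_simp
    ring
  rcases lt_or_ge D D₀ with h | h
  · refine ⟨{1}, ?_, ?_⟩
    · intro s hs
      rw [mem_singleton] at hs
      subst hs
      refine ⟨le_rfl, hD1, odd_one, squarefree_one, fun p hp hp1 => ?_⟩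
      exact absurd hp1 (by
        intro h
        have := Nat.le_of_dvd one_pos h
        have := hp.two_le
        omega)
    · rw [card_singleton]
      have h3 : (D : ℝ) ^ (1 / 2 - 2 * ε) ≤ (D : ℝ) ^ (1 : ℝ) := by
        apply rpow_le_rpow_of_exponent_le (by exact_mod_cast hD1)
        linarith
      rw [rpow_one] at h3
      have h4 : (D : ℝ) ≤ D₀ := by exact_mod_cast h.le
      push_cast
      rw [mul_one]
      exact h3.trans (h4.trans (le_max_right _ _))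
  · obtain ⟨S, hS1, hS2⟩ := hD₀ D h
    refine ⟨S, ?_, ?_⟩
    · intro s hs
      obtain ⟨a1, a2, a3, a4, a5⟩ := hS1 s hs
      refine ⟨a1, a2, a3, a4, fun p hp hps => ?_⟩
      rw [mem_Pr]
      refine ⟨hp, ?_, ?_⟩
      · refine (a5 p hp hps).trans ?_
        rw [← hA₁]
        have hl0 : 0 ≤ log (D : ℝ) := log_natCast_nonneg D
        have h3 : log (D : ℝ) ≤ 3 * log x := by
          have h4 : (D : ℝ) ≤ (x : ℝ) ^ 3 := by exact_mod_cast hDx
          have h5 := log_le_log (by exact_mod_cast hD1) h4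
          rwa [log_pow] at h5
        have hx0 : 0 < log (x : ℝ) := by linarith
        calc (log (D : ℝ)) ^ A₂ ≤ (3 * log x) ^ A₂ := rpow_le_rpow hl0 h3 (by linarith)
          _ = 3 ^ A₂ * (log x) ^ A₂ := mul_rpow (by norm_num) hx0.le
          _ ≤ (log x) ^ (A₁ - A₂) * (log x) ^ A₂ := by
              apply mul_le_mul_of_nonneg_right _ (by positivity)
              refine le_trans ?_ g1
              calc (3 : ℝ) ^ A₂ ≤ 3 ^ (2 : ℝ) := rpow_le_rpow_of_exponent_le (by norm_num) h2'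
                _ = 9 := by norm_num
          _ = (log x) ^ A₁ := by
              rw [← rpow_add hx0]
              congr 1
              ring
      · rintro rfl
        exact (Nat.not_even_iff_odd.2 a3) (even_iff_two_dvd.2 hps)
    · rw [← hexp]
      refine hS2.trans ?_
      have h3 : (1 : ℝ) ≤ max 1 (D₀ : ℝ) := le_max_left _ _
      have h4 : (0 : ℝ) ≤ S.card := Nat.cast_nonneg _
      nlinarith

/-- the same with a coprimality condition -/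
theorem smooth2 (ε : ℝ) (hε : 0 < ε) (hε1 : ε ≤ 1 / 20) : ∃ (C : ℝ) (x₀ : ℕ), 1 ≤ C ∧ ∀ x : ℕ, x₀ ≤ x →
    ∀ D : ℕ, 1 ≤ D → D ≤ x ^ 3 → ∀ d : ℕ, 1 ≤ d → d ≤ x → ∃ S : Finset ℕ,
    (∀ s ∈ S, 1 ≤ s ∧ s ≤ D ∧ Odd s ∧ Squarefree s ∧ s.Coprime d ∧ ∀ p : ℕ, p.Prime → p ∣ s → p ∈ Pr ε x) ∧
    (D : ℝ) ^ (1 / 2 - 2 * ε) ≤ C * (x : ℝ) ^ ε * S.card := by
  classical
  obtain ⟨C, x₀, hC, H⟩ := smooth1 ε hε hε1
  obtain ⟨C', hC', hdiv⟩ := Helper112.divisor_bound ε hε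
  refine ⟨max 1 (C * C'), x₀, le_max_left _ _, fun x hx D hD1 hDx d hd1 hdx => ?_⟩
  obtain ⟨S, hS1, hS2⟩ := H x hx D hD1 hDx
  obtain ⟨S', hS'⟩ : ∃ S', S' = S.image (fun s => s / Nat.gcd s d) := ⟨_, rfl⟩
  refine ⟨S', ?_, ?_⟩
  · intro s' hs'
    rw [hS', mem_image] at hs'
    obtain ⟨s, hs, rfl⟩ := hs'
    obtain ⟨a1, a2, a3, a4, a5⟩ := hS1 s hs
    have hg : Nat.gcd s d ∣ s := Nat.gcd_dvd_left s d
    have hdv : s / Nat.gcd s d ∣ s := Nat.div_dvd_of_dvd hg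
    have hpos : 0 < s / Nat.gcd s d := Nat.div_pos (Nat.le_of_dvd (by omega) hg) (Nat.gcd_pos_of_pos_left _ (by omega))
    refine ⟨hpos, (Nat.le_of_dvd (by omega) hdv).trans a2, Odd.of_dvd_nat a3 hdv, a4.squarefree_of_dvd hdv, ?_,
      fun p hp hps => a5 p hp (hps.trans hdv)⟩
    apply Nat.Coprime.symm
    rw [Nat.coprime_iff_gcd_eq_one]
    by_contra hne
    obtain ⟨p, hp, hpd⟩ := Nat.exists_prime_and_dvd hne
    have h1 : p ∣ d := hpd.trans (Nat.gcd_dvd_left _ _)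
    have h2 : p ∣ s / Nat.gcd s d := hpd.trans (Nat.gcd_dvd_right _ _)
    have h3 : p ∣ Nat.gcd s d := Nat.dvd_gcd (h2.trans hdv) h1
    have h4 : p * p ∣ s := by
      have h5 := mul_dvd_mul h2 h3
      rwa [Nat.div_mul_cancel hg] at h5
    exact hp.one_lt.ne' (Nat.isUnit_iff.1 (a4 p h4))
  · have h1 : S.card ≤ S'.card * d.divisors.card := by
      rw [← card_product]
      apply Finset.card_le_card_of_injOn (fun s => (s / Nat.gcd s d, Nat.gcd s d))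
      · intro s hs
        rw [mem_coe, mem_product, Nat.mem_divisors, hS']
        exact ⟨mem_image_of_mem _ hs, Nat.gcd_dvd_right s d, by omega⟩
      · intro s _ t _ hst
        have h2 := congrArg Prod.fst hst
        have h3 := congrArg Prod.snd hst
        beta_reduce at h2 h3
        simp only at h2 h3
        rw [← Nat.div_mul_cancel (Nat.gcd_dvd_left s d), ← Nat.div_mul_cancel (Nat.gcd_dvd_left t d), h2, h3]
    have h2 : (d.divisors.card : ℝ) ≤ C' * (x : ℝ) ^ ε := by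
      refine (hdiv d hd1).trans ?_
      apply mul_le_mul_of_nonneg_left _ hC'.le
      exact rpow_le_rpow (Nat.cast_nonneg _) (by exact_mod_cast hdx) hε.le
    have h3 : (S.card : ℝ) ≤ S'.card * (C' * (x : ℝ) ^ ε) := by
      calc (S.card : ℝ) ≤ ((S'.card * d.divisors.card : ℕ) : ℝ) := by exact_mod_cast h1
        _ = (S'.card : ℝ) * d.divisors.card := by push_cast; ring
        _ ≤ _ := mul_le_mul_of_nonneg_left h2 (Nat.cast_nonneg _)
    have h4 : 0 ≤ (x : ℝ) ^ ε * S'.card := by positivity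
    calc (D : ℝ) ^ (1 / 2 - 2 * ε) ≤ C * S.card := hS2
      _ ≤ C * (S'.card * (C' * (x : ℝ) ^ ε)) := mul_le_mul_of_nonneg_left h3 (by linarith)
      _ = (C * C') * ((x : ℝ) ^ ε * S'.card) := by ring
      _ ≤ max 1 (C * C') * ((x : ℝ) ^ ε * S'.card) := mul_le_mul_of_nonneg_right (le_max_right _ _) h4
      _ = _ := by ring

end Pool.Agent.H46SW
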