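import Pool.Agent.H46SW.Smooth

/-!
# The sieve for `1 + k a` and `1 + k b`
-/

set_option autoImplicit false

namespace Pool.Agent.H46SW

open Finset Real Pool.Agent.W57.SW

lemma neg_pow_parity {m c s : ℕ} (h : s % 2 = c) : ((-1 : ℤ)) ^ (m * s) = (-1) ^ (m * c) := by
  have h1 : s = c + 2 * (s / 2) := by omega
  rw [h1, mul_add, pow_add]
  have h2 : ((-1 : ℤ)) ^ (m * (2 * (s / 2))) = 1 := by
    rw [show m * (2 * (s / 2)) = 2 * (m * (s / 2)) by ring, pow_mul]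
    norm_num
  rw [h2, mul_one]

/-- one parity class -/
theorem sv_class (ε : ℝ) (hε : 0 < ε) (hε1 : ε ≤ 1 / 20) : ∃ (C : ℝ) (x₀ : ℕ), 1 ≤ C ∧ ∀ x : ℕ, x₀ ≤ x →
    ∀ (N a b : ℕ), 1 ≤ N → N ≤ x → a ≤ x → b ≤ x → a ≠ b → ∀ (F : Finset ℕ), F ⊆ Icc 1 N → ∀ v : ℕ → ℤ,
    (∀ ℓ ∈ Pr ε x, v ℓ ≠ 0) → ∀ c : ℕ,
    (∀ k ∈ F, Odd (1 + k * a) ∧ Odd (1 + k * b) ∧ ((1 + k * a) / 2 + (1 + k * b) / 2) % 2 = c ∧ ∀ ℓ ∈ Pr ε x,
      jacobiSym (ℓ : ℤ) (1 + k * a) * jacobiSym (ℓ : ℤ) (1 + k * b) = v ℓ) →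
    (F.card : ℝ) ≤ C * (x : ℝ) ^ (2 * ε) * (N : ℝ) ^ (3 / 4 : ℝ) := by
  obtain ⟨C, x₀, hC, H⟩ := smooth2 ε hε hε1
  refine ⟨24 * C, max x₀ 1, by linarith, fun x hx N a b hN1 hNx hax hbx hab F hF v hv c hc => ?_⟩
  have hx1 : 1 ≤ x := (le_max_right _ _).trans hx
  have hx1' : (1 : ℝ) ≤ x := by exact_mod_cast hx1
  have hxpos : (0 : ℝ) < x := by linarith
  obtain ⟨D, hD⟩ : ∃ D, D = Nat.sqrt N := ⟨_, rfl⟩
  have hD1 : 1 ≤ D := by rw [hD]; exact Nat.sqrt_pos.2 hN1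
  have hDN : D * D ≤ N := by rw [hD]; exact Nat.sqrt_le N
  have hND : N < (D + 1) * (D + 1) := by rw [hD]; exact Nat.lt_succ_sqrt N
  have hDx : D ≤ x ^ 3 := by
    calc D ≤ D * D := Nat.le_mul_of_pos_left _ hD1
      _ ≤ x := hDN.trans hNx
      _ = x ^ 1 := (pow_one x).symm
      _ ≤ x ^ 3 := Nat.pow_le_pow_right hx1 (by norm_num)
  obtain ⟨d, hd⟩ : ∃ d : ℕ, d = ((a : ℤ) - b).natAbs := ⟨_, rfl⟩
  have hd1 : 1 ≤ d := by
    rw [hd]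
    have : ((a : ℤ) - b) ≠ 0 := by
      intro h
      apply hab
      have : (a : ℤ) = b := by linarith
      exact_mod_cast this
    exact Int.natAbs_pos.2 this
  have hdx : d ≤ x := by
    rw [hd]
    omega
  obtain ⟨S, hS1, hS2⟩ := H x ((le_max_left _ _).trans hx) D hD1 hDx d hd1 hdx
  have hals := als hF S D (fun q hq => ⟨(hS1 q hq).1, (hS1 q hq).2.1, (hS1 q hq).2.2.2.1⟩) (by
    intro q hq p hp
    rw [Nat.mem_primeFactors] at hp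
    obtain ⟨hpp, hpq, _⟩ := hp
    obtain ⟨a1, a2, a3, a4, a5, a6⟩ := hS1 q hq
    have hpP := a6 p hpp hpq
    have hp2 : p ≠ 2 := (mem_Pr.1 hpP).2.2
    have hpd : ¬ p ∣ d := by
      intro h
      have h1 : p ∣ Nat.gcd q d := Nat.dvd_gcd hpq h
      rw [a5] at h1
      have := Nat.le_of_dvd one_pos h1
      have := hpp.two_le
      omega
    have hpo : Odd p := hpp.odd_of_ne_two hp2
    refine occ_half (a := a) (b := b) hpp hp2 ?_ (τ := (-1) ^ (p / 2 * c) * v p)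
      (mul_ne_zero (pow_ne_zero _ (by norm_num)) (hv p hpP)) ?_
    · intro h
      apply hpd
      have : Fact p.Prime := ⟨hpp⟩
      have h1 : (((a : ℤ) - b : ℤ) : ZMod p) = 0 := by
        push_cast
        rw [h, sub_self]
      rw [ZMod.intCast_zmod_eq_zero_iff_dvd] at h1
      rw [hd]
      exact Int.natCast_dvd.1 h1
    · intro k hk
      obtain ⟨b1, b2, b3, b4⟩ := hc k hk
      rw [jacobiSym.quadratic_reciprocity b1 hpo, jacobiSym.quadratic_reciprocity b2 hpo, ← b4 p hpP]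
      have e1 : ((-1 : ℤ)) ^ ((1 + k * a) / 2 * (p / 2)) * (-1) ^ ((1 + k * b) / 2 * (p / 2)) = (-1) ^ (p / 2 * c) := by
        rw [← pow_add, ← neg_pow_parity (m := p / 2) b3]
        congr 1
        ring
      rw [← e1]
      ring)
  -- the final computation
  have hNr : (1 : ℝ) ≤ N := by exact_mod_cast hN1
  have hDr : (1 : ℝ) ≤ D := by exact_mod_cast hD1
  have hDNr : (D : ℝ) ^ 2 ≤ N := by
    have : ((D * D : ℕ) : ℝ) ≤ N := by exact_mod_cast hDN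
    push_cast at this
    nlinarith
  have h12 : (S.card : ℝ) * F.card ≤ 12 * N := by linarith
  have hN4 : (N : ℝ) ^ (1 / 4 : ℝ) ≤ 2 * (x : ℝ) ^ ε * (D : ℝ) ^ (1 / 2 - 2 * ε) := by
    have h1 : (N : ℝ) ≤ (2 * D) ^ (2 : ℝ) := by
      rw [rpow_two]
      have : (N : ℝ) ≤ ((D + 1) * (D + 1) : ℕ) := by exact_mod_cast hND.le
      push_cast at this
      nlinarith
    have h2 : (N : ℝ) ^ (1 / 4 : ℝ) ≤ (2 * D) ^ (1 / 2 : ℝ) := by
      calc (N : ℝ) ^ (1 / 4 : ℝ) ≤ ((2 * (D : ℝ)) ^ (2 : ℝ)) ^ (1 / 4 : ℝ) :=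
            rpow_le_rpow (by linarith) h1 (by norm_num)
        _ = (2 * (D : ℝ)) ^ (1 / 2 : ℝ) := by
            rw [← rpow_mul (by positivity)]
            norm_num
    have h3 : (2 * (D : ℝ)) ^ (1 / 2 : ℝ) ≤ 2 * (D : ℝ) ^ (1 / 2 : ℝ) := by
      rw [mul_rpow (by norm_num) (by linarith)]
      apply mul_le_mul_of_nonneg_right _ (by positivity)
      calc (2 : ℝ) ^ (1 / 2 : ℝ) ≤ 2 ^ (1 : ℝ) := rpow_le_rpow_of_exponent_le (by norm_num) (by norm_num)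
        _ = 2 := rpow_one 2
    have h4 : (D : ℝ) ^ (1 / 2 : ℝ) = (D : ℝ) ^ (2 * ε) * (D : ℝ) ^ (1 / 2 - 2 * ε) := by
      rw [← rpow_add (by linarith)]
      congr 1
      ring
    have h5 : (D : ℝ) ^ (2 * ε) ≤ (x : ℝ) ^ ε := by
      rw [rpow_mul (by linarith), rpow_two]
      exact rpow_le_rpow (by positivity) (hDNr.trans (by exact_mod_cast hNx)) hε.le
    calc (N : ℝ) ^ (1 / 4 : ℝ) ≤ 2 * (D : ℝ) ^ (1 / 2 : ℝ) := h2.trans h3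
      _ = 2 * ((D : ℝ) ^ (2 * ε) * (D : ℝ) ^ (1 / 2 - 2 * ε)) := by rw [h4]
      _ ≤ 2 * ((x : ℝ) ^ ε * (D : ℝ) ^ (1 / 2 - 2 * ε)) := by
          apply mul_le_mul_of_nonneg_left _ (by norm_num)
          exact mul_le_mul_of_nonneg_right h5 (by positivity)
      _ = _ := by ring
  have hF0 : (0 : ℝ) ≤ F.card := Nat.cast_nonneg _
  have hxe : 0 < (x : ℝ) ^ ε := by positivity
  have h6 : (F.card : ℝ) * (N : ℝ) ^ (1 / 4 : ℝ) ≤ 24 * C * (x : ℝ) ^ (2 * ε) * N := by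
    calc (F.card : ℝ) * (N : ℝ) ^ (1 / 4 : ℝ) ≤ F.card * (2 * (x : ℝ) ^ ε * (D : ℝ) ^ (1 / 2 - 2 * ε)) :=
          mul_le_mul_of_nonneg_left hN4 hF0
      _ = 2 * (x : ℝ) ^ ε * F.card * (D : ℝ) ^ (1 / 2 - 2 * ε) := by ring
      _ ≤ 2 * (x : ℝ) ^ ε * F.card * (C * (x : ℝ) ^ ε * S.card) :=
          mul_le_mul_of_nonneg_left hS2 (by positivity)
      _ = 2 * C * ((x : ℝ) ^ ε * (x : ℝ) ^ ε) * (S.card * F.card) := by ring
      _ ≤ 2 * C * ((x : ℝ) ^ ε * (x : ℝ) ^ ε) * (12 * N) := by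
          apply mul_le_mul_of_nonneg_left h12
          have : 0 ≤ C := by linarith
          positivity
      _ = _ := by
          rw [← rpow_add hxpos, ← two_mul]
          ring
  have h7 : (N : ℝ) = (N : ℝ) ^ (3 / 4 : ℝ) * (N : ℝ) ^ (1 / 4 : ℝ) := by
    rw [← rpow_add (by linarith)]
    norm_num
  have h8 : 0 < (N : ℝ) ^ (1 / 4 : ℝ) := by positivity
  rw [show 24 * C * (x : ℝ) ^ (2 * ε) * N = (24 * C * (x : ℝ) ^ (2 * ε) * (N : ℝ) ^ (3 / 4 : ℝ)) * (N : ℝ) ^ (1 / 4 : ℝ) by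
    conv_lhs => rw [h7]
    ring] at h6
  exact le_of_mul_le_mul_right h6 h8

theorem sv (ε : ℝ) (hε : 0 < ε) (hε1 : ε ≤ 1 / 20) : ∃ (C : ℝ) (x₀ : ℕ), 1 ≤ C ∧ ∀ x : ℕ, x₀ ≤ x →
    ∀ (N a b : ℕ), 1 ≤ N → N ≤ x → a ≤ x → b ≤ x → a ≠ b → ∀ (F : Finset ℕ), F ⊆ Icc 1 N → ∀ v : ℕ → ℤ,
    (∀ ℓ ∈ Pr ε x, v ℓ ≠ 0) →
    (∀ k ∈ F, Odd (1 + k * a) ∧ Odd (1 + k * b) ∧ ∀ ℓ ∈ Pr ε x,
      jacobiSym (ℓ : ℤ) (1 + k * a) * jacobiSym (ℓ : ℤ) (1 + k * b) = v ℓ) →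
    (F.card : ℝ) ≤ C * (x : ℝ) ^ (2 * ε) * (N : ℝ) ^ (3 / 4 : ℝ) := by
  classical
  obtain ⟨C, x₀, hC, H⟩ := sv_class ε hε hε1
  refine ⟨2 * C, x₀, by linarith, fun x hx N a b hN1 hNx hax hbx hab F hF v hv hc => ?_⟩
  have h1 : ∀ c : ℕ, ((F.filter (fun k => ((1 + k * a) / 2 + (1 + k * b) / 2) % 2 = c)).card : ℝ) ≤
      C * (x : ℝ) ^ (2 * ε) * (N : ℝ) ^ (3 / 4 : ℝ) := by
    intro c
    refine H x hx N a b hN1 hNx hax hbx hab _ ((filter_subset _ _).trans hF) v hv c ?_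
    intro k hk
    rw [mem_filter] at hk
    obtain ⟨a1, a2, a3⟩ := hc k hk.1
    exact ⟨a1, a2, hk.2, a3⟩
  have h2 : F = F.filter (fun k => ((1 + k * a) / 2 + (1 + k * b) / 2) % 2 = 0) ∪
      F.filter (fun k => ((1 + k * a) / 2 + (1 + k * b) / 2) % 2 = 1) := by
    ext k
    rw [mem_union, mem_filter, mem_filter]
    constructor
    · intro hk
      rcases Nat.mod_two_eq_zero_or_one ((1 + k * a) / 2 + (1 + k * b) / 2) with h | h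
      · exact Or.inl ⟨hk, h⟩
      · exact Or.inr ⟨hk, h⟩
    · rintro (h | h)
      · exact h.1
      · exact h.1
  have h3 : (F.card : ℝ) ≤ ((F.filter (fun k => ((1 + k * a) / 2 + (1 + k * b) / 2) % 2 = 0)).card : ℝ) +
      ((F.filter (fun k => ((1 + k * a) / 2 + (1 + k * b) / 2) % 2 = 1)).card : ℝ) := by
    conv_lhs => rw [h2]
    exact_mod_cast card_union_le _ _
  have := h1 0
  have := h1 1
  linarith

end Pool.Agent.H46SW
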